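import Pool.Agent.CoprimeSig.Defs2
import Pool.Agent.OneFrob.Torus

/-!
# The l-adic Lie algebra: definitions
-/

set_option autoImplicit false

namespace Pool.Agent.EllSig

open Module Pool.Agent.CoprimeSig

variable {ι : Type} [Fintype ι] [DecidableEq ι]

/-- A reductive Lie algebra of similitudes of the alternating form with matrix `F`. -/
structure LData (g : Submodule ℂ (Matrix ι ι ℂ)) (F : Matrix ι ι ℂ) : Prop where
  lie : ∀ x ∈ g, ∀ y ∈ g, x * y - y * x ∈ g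
  one : (1 : Matrix ι ι ℂ) ∈ g
  sim : ∀ x ∈ g, ∃ κ : ℂ, x.transpose * F + F * x = κ • F
  alt : F.transpose = -F
  unit : IsUnit F
  nd : ∀ x ∈ g, (∀ y ∈ g, (x * y).trace = 0) → x = 0
  ss : ∀ W : Submodule ℂ (ι → ℂ), (∀ x ∈ g, ∀ w ∈ W, x.mulVec w ∈ W) →
    ∃ W' : Submodule ℂ (ι → ℂ), IsCompl W W' ∧ ∀ x ∈ g, ∀ w ∈ W', x.mulVec w ∈ W'

end Pool.Agent.EllSig
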