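import Pool.Agent.EllSig.Defs
import Pool.Agent.CoprimeSig.Cj
import Pool.Agent.CoprimeSig.Simul

/-!
# The Lie algebra of the Frobenius torus of a rational matrix
-/

set_option autoImplicit false
set_option linter.unusedSectionVars false

namespace Pool.Agent.EllSig

open Module Pool.Agent.CoprimeSig Pool.Agent.OneFrob

variable {ι : Type} [Fintype ι] [DecidableEq ι]

/-- Endomorphisms which agree on all eigenspaces of a diagonalisable one are equal. -/
private theorem frob_ext {F A B : End ℂ (ι → ℂ)} (hF : ⨆ μ, F.eigenspace μ = ⊤)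
    (h : ∀ μ, ∀ v ∈ F.eigenspace μ, A v = B v) : A = B := by
  have h1 : (⊤ : Submodule ℂ (ι → ℂ)) ≤ LinearMap.eqLocus A B := by
    rw [← hF]
    exact iSup_le fun μ v hv => h μ v hv
  exact LinearMap.ext fun v => h1 (Submodule.mem_top : v ∈ ⊤)

private theorem frob_aeval_apply {F : End ℂ (ι → ℂ)} (p : Polynomial ℂ) {μ : ℂ} {v : ι → ℂ}
    (hv : v ∈ F.eigenspace μ) : Polynomial.aeval F p v = p.eval μ • v := by
  by_cases h : v = 0
  · rw [h, map_zero, smul_zero]
  · exact Module.End.aeval_apply_of_hasEigenvector ⟨hv, h⟩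

private theorem frob_toLin'_aeval (M : Matrix ι ι ℂ) (p : Polynomial ℂ) :
    Matrix.toLin' (Polynomial.aeval M p) = Polynomial.aeval (Matrix.toLin' M) p := by
  have h := Polynomial.aeval_algHom_apply (Matrix.toLinAlgEquiv' (R := ℂ) (n := ι)).toAlgHom M p
  exact h.symm

private theorem frob_ratM_map (Φ : Matrix ι ι ℚ) (σ : ℂ →+* ℂ) : (ratM Φ).map σ = ratM Φ := by
  ext i j
  simp [ratM]

private theorem frob_aeval_map (Φ : Matrix ι ι ℚ) (σ : ℂ →+* ℂ) (p : Polynomial ℂ) :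
    (Polynomial.aeval (ratM Φ) p).map σ = Polynomial.aeval (ratM Φ) (p.map σ) := by
  have h1 := Polynomial.hom_eval₂ p (algebraMap ℂ (Matrix ι ι ℂ)) σ.mapMatrix (ratM Φ)
  have h2 : σ.mapMatrix.comp (algebraMap ℂ (Matrix ι ι ℂ)) =
      (algebraMap ℂ (Matrix ι ι ℂ)).comp σ := by
    ext c i j
    simp only [RingHom.comp_apply, RingHom.mapMatrix_apply, Matrix.map_apply,
      Matrix.algebraMap_matrix_apply]
    split_ifs
    · rfl
    · exact map_zero σ
  rw [h2, ← Polynomial.eval₂_map] at h1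
  have h3 : σ.mapMatrix (ratM Φ) = ratM Φ := frob_ratM_map Φ σ
  rw [h3] at h1
  exact h1

/-- An element of the Lie algebra is a polynomial in the endomorphism. -/
private theorem frob_poly {F D : End ℂ (ι → ℂ)} (hF : ⨆ μ, F.eigenspace μ = ⊤) {d : ℂ → ℂ}
    (hd : ∀ μ, ∀ v ∈ F.eigenspace μ, D v = d μ • v) :
    ∃ p : Polynomial ℂ, D = Polynomial.aeval F p ∧ ∀ μ, F.HasEigenvalue μ → p.eval μ = d μ := by
  classical
  let S : Finset ℂ := F.finite_hasEigenvalue.toFinset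
  have hS : ∀ μ, μ ∈ S ↔ F.HasEigenvalue μ := fun μ => by
    simp [S]
  have hp : ∀ μ, F.HasEigenvalue μ → (Lagrange.interpolate S id d).eval μ = d μ := fun μ hμ =>
    Lagrange.eval_interpolate_at_node d (Set.injOn_id _) ((hS μ).2 hμ)
  refine ⟨Lagrange.interpolate S id d, frob_ext hF fun μ v hv => ?_, hp⟩
  rw [hd μ v hv, frob_aeval_apply _ hv]
  by_cases h : v = 0
  · rw [h, smul_zero, smul_zero]
  · rw [hp μ (Module.End.hasEigenvalue_of_hasEigenvector ⟨hv, h⟩)]

private theorem frob_hasEigenvalue (Φ : Matrix ι ι ℚ) (σ : ℂ →+* ℂ) {μ : ℂ}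
    (h : Module.End.HasEigenvalue (Matrix.toLin' (ratM Φ)) μ) :
    Module.End.HasEigenvalue (Matrix.toLin' (ratM Φ)) (σ μ) := by
  obtain ⟨v, hv, hv0⟩ := h.exists_hasEigenvector
  refine Module.End.hasEigenvalue_of_hasEigenvector (x := fun i => σ (v i)) ⟨?_, ?_⟩
  · rw [Module.End.mem_eigenspace_iff] at hv ⊢
    rw [Matrix.toLin'_apply] at hv ⊢
    rw [ratM_mulVec_cj, hv]
    funext i
    simp
  · intro h0
    apply hv0
    funext i
    have := congrFun h0 i
    exact σ.injective (this.trans (map_zero σ).symm)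

/-- The field endomorphisms permute the eigenvalues of a rational matrix. -/
private theorem frob_surj (Φ : Matrix ι ι ℚ) (σ : ℂ →+* ℂ) {ν : ℂ}
    (h : Module.End.HasEigenvalue (Matrix.toLin' (ratM Φ)) ν) :
    ∃ μ, Module.End.HasEigenvalue (Matrix.toLin' (ratM Φ)) μ ∧ σ μ = ν := by
  have hfin : Finite {μ | Module.End.HasEigenvalue (Matrix.toLin' (ratM Φ)) μ} :=
    Module.End.finite_hasEigenvalue (Matrix.toLin' (ratM Φ))
  let f : {μ | Module.End.HasEigenvalue (Matrix.toLin' (ratM Φ)) μ} →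
      {μ | Module.End.HasEigenvalue (Matrix.toLin' (ratM Φ)) μ} := fun μ =>
    ⟨σ μ.1, frob_hasEigenvalue Φ σ μ.2⟩
  have hf : Function.Injective f := fun a b hab =>
    Subtype.ext (σ.injective (congrArg Subtype.val hab))
  obtain ⟨μ, hμ⟩ := Finite.surjective_of_injective hf ⟨ν, h⟩
  exact ⟨μ.1, μ.2, congrArg Subtype.val hμ⟩

/-- T3 (file Frob.lean): the Lie algebra of the Frobenius torus of a rational matrix. -/
theorem exists_ft (Φ : Matrix ι ι ℚ)
    (hΦ : ⨆ μ, Module.End.eigenspace (Matrix.toLin' (ratM Φ)) μ = ⊤) :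
    ∃ t : Submodule ℂ (Matrix ι ι ℂ),
      (∀ x, x ∈ t ↔ Matrix.toLin' x ∈ frobTorus (Matrix.toLin' (ratM Φ))) ∧
      (∀ x ∈ t, ∀ y ∈ t, x * y = y * x) ∧ (∀ σ : ℂ →+* ℂ, ∀ x ∈ t, x.map σ ∈ t) ∧
      ∃ v : Basis ι ℂ (ι → ℂ), ∀ x ∈ t, ∀ i, ∃ c : ℂ, Matrix.toLin' x (v i) = c • v i := by
  classical
  refine ⟨{ carrier := {x | Matrix.toLin' x ∈ frobTorus (Matrix.toLin' (ratM Φ))}
            add_mem' := ?_
            zero_mem' := ?_
            smul_mem' := ?_ }, fun x => Iff.rfl, ?_, ?_, ?_⟩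
  · rintro x y ⟨d, hd, hd'⟩ ⟨e, he, he'⟩
    refine ⟨fun μ => d μ + e μ, fun μ v hv => ?_, fun s hs n hn => ?_⟩
    · rw [map_add, LinearMap.add_apply, hd μ v hv, he μ v hv, add_smul]
    · simp only [mul_add, Finset.sum_add_distrib]
      rw [hd' s hs n hn, he' s hs n hn, add_zero]
  · refine ⟨fun _ => 0, fun μ v _ => ?_, fun s _ n _ => ?_⟩
    · rw [map_zero, LinearMap.zero_apply, zero_smul]
    · simp
  · rintro c x ⟨d, hd, hd'⟩
    refine ⟨fun μ => c * d μ, fun μ v hv => ?_, fun s hs n hn => ?_⟩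
    · rw [map_smul, LinearMap.smul_apply, hd μ v hv, mul_smul]
    · have h1 : ∑ μ ∈ s, (n μ : ℂ) * (c * d μ) = c * ∑ μ ∈ s, (n μ : ℂ) * d μ := by
        rw [Finset.mul_sum]
        exact Finset.sum_congr rfl fun μ _ => by ring
      rw [h1, hd' s hs n hn, mul_zero]
  · rintro x ⟨d, hd, _⟩ y ⟨e, he, _⟩
    apply (Matrix.toLin' (R := ℂ)).injective
    rw [Matrix.toLin'_mul, Matrix.toLin'_mul]
    refine frob_ext hΦ fun μ v hv => ?_
    rw [LinearMap.comp_apply, LinearMap.comp_apply, he μ v hv, hd μ v hv, map_smul, map_smul,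
      he μ v hv, hd μ v hv, smul_smul, smul_smul, mul_comm]
  · rintro σ x ⟨d, hd, hd'⟩
    obtain ⟨p, hp, hpd⟩ := frob_poly hΦ hd
    have hx : x = Polynomial.aeval (ratM Φ) p := by
      apply (Matrix.toLin' (R := ℂ)).injective
      rw [frob_toLin'_aeval]
      exact hp
    change Matrix.toLin' (x.map σ) ∈ frobTorus (Matrix.toLin' (ratM Φ))
    rw [hx, frob_aeval_map, frob_toLin'_aeval]
    refine ⟨fun ν => (p.map σ).eval ν, fun ν v hv => frob_aeval_apply _ hv,
      fun s hs n hn => ?_⟩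
    have hex : ∀ ν : ℂ, ∃ μ : ℂ, ν ∈ s → Module.End.HasEigenvalue (Matrix.toLin' (ratM Φ)) μ ∧ σ μ = ν := by
      intro ν
      by_cases h : ν ∈ s
      · obtain ⟨μ, hμ⟩ := frob_surj Φ σ (hs ν h)
        exact ⟨μ, fun _ => hμ⟩
      · exact ⟨0, fun h' => absurd h' h⟩
    choose ρ hρ using hex
    have hinj : ∀ a ∈ s, ∀ b ∈ s, ρ a = ρ b → a = b := fun a ha b hb hab => by
      rw [← (hρ a ha).2, ← (hρ b hb).2, hab]
    have h1 := hd' (s.image ρ) (by
      intro μ hμ
      obtain ⟨ν, hν, rfl⟩ := Finset.mem_image.1 hμ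
      exact (hρ ν hν).1) (fun μ => n (σ μ)) (by
      rw [Finset.prod_image hinj]
      apply σ.injective
      rw [map_prod, map_one, ← hn]
      refine Finset.prod_congr rfl fun ν hν => ?_
      rw [map_zpow₀, (hρ ν hν).2])
    rw [Finset.sum_image hinj] at h1
    have h2 := congrArg σ h1
    rw [map_sum, map_zero] at h2
    rw [← h2]
    refine Finset.sum_congr rfl fun ν hν => ?_
    rw [map_mul, map_intCast, (hρ ν hν).2]
    congr 1
    have h3 : (p.map σ).eval ν = (p.map σ).eval (σ (ρ ν)) := by rw [(hρ ν hν).2]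
    change (p.map σ).eval ν = σ (d (ρ ν))
    rw [h3, Polynomial.eval_map_apply, hpd _ (hρ ν hν).1]
  · obtain ⟨v, hv⟩ := exists_eigenbasis {Matrix.toLin' (ratM Φ)}
      (by rintro x rfl y rfl; rfl) (by rintro x rfl; exact hΦ)
    have hcard : finrank ℂ (ι → ℂ) = Fintype.card ι := Module.finrank_fintype_fun_eq_card ℂ
    refine ⟨v.reindex ((finCongr hcard).trans (Fintype.equivFin ι).symm), ?_⟩
    rintro x ⟨d, hd, _⟩ i
    rw [Module.Basis.reindex_apply]
    obtain ⟨c, hc⟩ := hv _ rfl (((finCongr hcard).trans (Fintype.equivFin ι).symm).symm i)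
    exact ⟨d c, hd c _ (Module.End.mem_eigenspace_iff.2 hc)⟩

end Pool.Agent.EllSig
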