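import Pool.Agent.EllSig.Lef
import Pool.Agent.EllSig.Frob

/-!
# The l-adic Lie algebra of an abelian variety of type IV with a signature prime to `l`
-/

set_option autoImplicit false

namespace Pool.Agent.EllSig

open Module Pool.Agent.CoprimeSig Pool.Agent.PrimeSig Pool.Agent.OneFrob

variable {ι : Type} [Fintype ι] [DecidableEq ι]

private theorem finrank_iSup_ind {κ : Type*} [Finite κ] {p : κ → Submodule ℂ (ι → ℂ)}
    (h : iSupIndep p) : finrank ℂ (⨆ i, p i : Submodule ℂ (ι → ℂ)) = ∑ᶠ i, finrank ℂ (p i) := by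
  classical
  have : Fintype κ := Fintype.ofFinite κ
  rw [Submodule.iSup_eq_range_dfinsupp_lsum]
  have h1 : Function.Injective
      (DFinsupp.lsum ℕ (fun i => (p i).subtype) : (Π₀ i, p i) →ₗ[ℂ] (ι → ℂ)) :=
    h.dfinsupp_lsum_injective
  rw [LinearMap.finrank_range_of_inj h1, finsum_eq_sum_of_fintype]
  exact finrank_directSum ℂ (fun i => p i)

private theorem finrank_iSup_mem {κ : Type*} [Finite κ] {p : κ → Submodule ℂ (ι → ℂ)}
    (h : iSupIndep p) (S : Set κ) :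
    finrank ℂ (⨆ i ∈ S, p i : Submodule ℂ (ι → ℂ)) = ∑ᶠ i ∈ S, finrank ℂ (p i) := by
  rw [iSup_subtype', ← finsum_set_coe_eq_finsum_mem (f := fun i => finrank ℂ (p i)) S]
  exact finrank_iSup_ind (h.comp Subtype.val_injective)

private theorem finrank_VS_const {K : Type} [Field K] [NumberField K]
    {R : K →+* Matrix ι ι ℚ} (hind : iSupIndep (HS R)) {σ₀ : K →+* ℂ}
    (h : ∀ σ : K →+* ℂ, finrank ℂ (HS R σ) = finrank ℂ (HS R σ₀)) (S : Set (K →+* ℂ)) :
    finrank ℂ (VS R S) = Nat.card S * finrank ℂ (HS R σ₀) := by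
  classical
  have h1 : finrank ℂ (VS R S) = ∑ᶠ σ : S, finrank ℂ (HS R σ.1) := by
    rw [finsum_set_coe_eq_finsum_mem (f := fun σ => finrank ℂ (HS R σ)) S]
    exact finrank_iSup_mem hind S
  rw [h1, finsum_eq_sum_of_fintype]
  have h2 : ∀ σ ∈ (Finset.univ : Finset S), finrank ℂ (HS R σ.1) = finrank ℂ (HS R σ₀) :=
    fun σ _ => h σ.1
  rw [Finset.sum_congr rfl h2, Finset.sum_const, Finset.card_univ, smul_eq_mul,
    Nat.card_eq_fintype_card]

/-- The eigenspace for `σ` is isotypic: no proper nonzero subspace is stable under `g` and all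
endomorphisms of the eigenspace which commute with `g`. -/
def Isotypic (g : Submodule ℂ (Matrix ι ι ℂ)) (W : Submodule ℂ (ι → ℂ)) : Prop :=
  ∀ U ≤ W, (∀ x ∈ g, ∀ u ∈ U, x.mulVec u ∈ U) →
    (∀ Z : Matrix ι ι ℂ, (∀ x ∈ g, x * Z = Z * x) → (∀ w ∈ W, Z.mulVec w ∈ W) →
      ∀ u ∈ U, Z.mulVec u ∈ U) → U = ⊥ ∨ U = W

/-- The l-adic Lie algebra consists of all similitudes in its double commutant. -/
theorem full_orbit {K : Type} [Field K] [NumberField K] [NumberField.IsCMField K]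
    (R : K →+* Matrix ι ι ℚ) (Φ : Matrix ι ι ℚ)
    (hΦ : ⨆ μ, Module.End.eigenspace (Matrix.toLin' (ratM Φ)) μ = ⊤)
    {g : Submodule ℂ (Matrix ι ι ℂ)} {F : Matrix ι ι ℂ} (D : LData g F)
    (hR : ∀ r, (ratM (R r)).transpose * F = F * ratM (R (NumberField.IsCMField.complexConj K r)))
    (hK : ∀ r, ∀ x ∈ g, x * ratM (R r) = ratM (R r) * x) (hiso : ∀ σ, Isotypic g (HS R σ))
    (htor : ∀ x, Matrix.toLin' x ∈ frobTorus (Matrix.toLin' (ratM Φ)) → x ∈ g)
    (hcent : ∀ x ∈ g, (∀ y, Matrix.toLin' y ∈ frobTorus (Matrix.toLin' (ratM Φ)) →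
      x * y = y * x) → Matrix.toLin' x ∈ frobTorus (Matrix.toLin' (ratM Φ)))
    {e : Matrix ι ι ℂ} (he : e ∈ g) (hee : e * e = e) (heF : e.transpose * F + F * e = F)
    (M M' : Subfield ℂ) (hMM : M ≤ M') (σ₀ : K →+* ℂ)
    (hS : ∀ σ, σ ∈ conjOver M σ₀ ↔ (starRingEnd ℂ).comp σ ∉ conjOver M σ₀)
    {l k : ℕ} (hl : l.Prime)
    (hk : Fintype.card ι * Nat.card (conjOver M' σ₀) = l ^ k * finrank ℚ K)
    (hM : Fintype.card ι = finrank ℚ K ∨
      ¬ l ∣ finrank σ₀.fieldRange (IntermediateField.adjoin σ₀.fieldRange (M' : Set ℂ)))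
    (h0 : ∀ σ ∈ conjOver M σ₀, σ ∉ conjOver M' σ₀ → (HS R σ).map (Matrix.toLin' e) = ⊥)
    (hla : ¬ l ∣ ∑ᶠ σ ∈ conjOver M' σ₀, finrank ℂ ((HS R σ).map (Matrix.toLin' e)))
    (h4 : 4 * (∑ᶠ σ ∈ conjOver M' σ₀, finrank ℂ ((HS R σ).map (Matrix.toLin' e))) ≠
      Fintype.card ι)
    (N : Matrix ι ι ℂ) :
    N ∈ g ↔ (∃ m : ℂ, N.transpose * F + F * N = m • F) ∧
      ∀ Z : Matrix ι ι ℂ, (∀ x ∈ g, x * Z = Z * x) → N * Z = Z * N := by
  constructor
  · intro hN
    exact ⟨D.sim N hN, fun Z hZ => hZ N hN⟩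
  rintro ⟨⟨m, hm⟩, hcomm⟩
  let c : K →+* K := (NumberField.IsCMField.complexConj K : K →+* K)
  have hc : ∀ (σ : K →+* ℂ) (r : K), σ (c r) = starRingEnd ℂ (σ r) :=
    fun σ r => NumberField.IsCMField.complexEmbedding_complexConj K σ r
  obtain ⟨t, ht, htc, htconj, v, hv⟩ := exists_ft Φ hΦ
  have htg : t ≤ g := fun x hx => htor x ((ht x).1 hx)
  have hcent' : ∀ x ∈ g, (∀ y ∈ t, x * y = y * x) → x ∈ t := fun x hx h =>
    (ht x).2 (hcent x hx fun y hy => h y ((ht y).2 hy))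
  have hfK : 0 < finrank ℚ K := finrank_pos
  obtain ⟨-, hind, hfin⟩ := HS_decomp R
  have hconst : ∀ σ : K →+* ℂ, finrank ℂ (HS R σ) = finrank ℂ (HS R σ₀) := fun σ =>
    mul_right_cancel₀ hfK.ne' ((hfin σ).trans (hfin σ₀).symm)
  have hmapHS : ∀ σ, (HS R σ).map (Matrix.toLin' e) ≤ HS R σ := by
    rintro σ _ ⟨w, hw, rfl⟩ r
    rw [Matrix.toLin'_apply, Matrix.mulVec_mulVec, ← hK r e he, ← Matrix.mulVec_mulVec, hw r,
      Matrix.mulVec_smul]
  have hdim : ∀ S : Set (K →+* ℂ), finrank ℂ ((VS R S).map (Matrix.toLin' e)) =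
      ∑ᶠ σ ∈ S, finrank ℂ ((HS R σ).map (Matrix.toLin' e)) := by
    intro S
    have h3 : (VS R S).map (Matrix.toLin' e) = ⨆ σ ∈ S, (HS R σ).map (Matrix.toLin' e) := by
      unfold VS
      rw [Submodule.map_iSup]
      simp only [Submodule.map_iSup]
    rw [h3, finrank_iSup_mem (hind.mono hmapHS) S]
  have hW : finrank ℂ (VS R (conjOver M' σ₀)) = l ^ k := by
    have h3 : finrank ℂ (VS R (conjOver M' σ₀)) =
        Nat.card (conjOver M' σ₀) * finrank ℂ (HS R σ₀) := finrank_VS_const hind hconst _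
    have h4 : finrank ℂ (VS R (conjOver M' σ₀)) * finrank ℚ K = l ^ k * finrank ℚ K := by
      rw [h3, ← hk, mul_assoc, hfin, mul_comm]
    exact mul_right_cancel₀ hfK.ne' h4
  have h1 : N - (m / 2) • (1 : Matrix ι ι ℂ) ∈ g := by
    refine full_ell D hK hiso c hc hR htg htc hcent' htconj v hv he hee heF M M' hMM σ₀ hS hl hW
      ?_ ?_ (by rw [hdim]; exact hla) (by rw [hdim]; exact h4) _ ?_ fun Z hZ => ?_
    · rcases hM with h3 | h3
      · left
        have h5 := hfin σ₀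
        rw [h3] at h5
        exact Nat.eq_of_mul_eq_mul_right hfK (by rw [h5, one_mul])
      · exact Or.inr h3
    · intro σ h3 h5 w hw
      have h6 : Matrix.toLin' e w ∈ (HS R σ).map (Matrix.toLin' e) := ⟨w, hw, rfl⟩
      rw [h0 σ h3 h5, Submodule.mem_bot, Matrix.toLin'_apply] at h6
      exact h6
    · rw [Matrix.transpose_sub, Matrix.transpose_smul, Matrix.transpose_one, sub_mul, mul_sub,
        Matrix.smul_mul, Matrix.mul_smul, one_mul, mul_one]
      have h5 : N.transpose * F + F * N = m • F := hm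
      calc N.transpose * F - (m / 2) • F + (F * N - (m / 2) • F)
          = (N.transpose * F + F * N) - m • F := by module
        _ = 0 := by rw [h5, sub_self]
    · rw [sub_mul, mul_sub, hcomm Z hZ, Matrix.smul_mul, Matrix.mul_smul, one_mul, mul_one]
  have h2 := g.add_mem h1 (g.smul_mem (m / 2) D.one)
  rwa [sub_add_cancel] at h2

end Pool.Agent.EllSig
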