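import Pool.Agent.EllSig.Defs
import Pool.Agent.PrimeSig.Tor
import Pool.Agent.CoprimeSig.FullG
import Pool.Agent.CoprimeSig.Lefschetz

/-!
# Coroots, the square root, and the full Lie algebra for `LData`
-/

set_option autoImplicit false
set_option linter.unusedSectionVars false

namespace Pool.Agent.EllSig

open Module Pool.Agent.CoprimeSig Pool.Agent.PrimeSig Pool.Agent.OneFrob

variable {ι : Type} [Fintype ι] [DecidableEq ι] {g t : Submodule ℂ (Matrix ι ι ℂ)}
  {F : Matrix ι ι ℂ}

private theorem gen_inj {A B : Matrix ι ι ℂ} : Matrix.toLin' A = Matrix.toLin' B ↔ A = B :=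
  (Matrix.toLin' (R := ℂ)).injective.eq_iff

/-- Nondegeneracy of the form. -/
private theorem gen_nd (D : LData g F) (v : ι → ℂ) (h : ∀ u, fgPsi F u v = 0) : v = 0 := by
  have h1 : F.mulVec v = 0 := by
    apply dotProduct_eq_zero
    intro u
    rw [dotProduct_comm]
    exact h u
  obtain ⟨U, hU⟩ := D.unit
  have h2 : ((U⁻¹ : (Matrix ι ι ℂ)ˣ) : Matrix ι ι ℂ).mulVec (F.mulVec v) = v := by
    rw [Matrix.mulVec_mulVec, ← hU, Units.inv_mul, Matrix.one_mulVec]
  rw [← h2, h1, Matrix.mulVec_zero]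

variable {K : Type} [Field K] [NumberField K] {R : K →+* Matrix ι ι ℚ}

/-- A matrix commuting with `K` preserves the eigenspaces. -/
private theorem gen_pres {x : Matrix ι ι ℂ} (hx : ∀ r, x * ratM (R r) = ratM (R r) * x)
    (σ : K →+* ℂ) {w : ι → ℂ} (hw : w ∈ HS R σ) : x.mulVec w ∈ HS R σ := by
  rw [mem_HS]
  intro r
  rw [Matrix.mulVec_mulVec, ← hx r, ← Matrix.mulVec_mulVec, hw r, Matrix.mulVec_smul]

private theorem gen_le_VS (R : K →+* Matrix ι ι ℚ) {S : Set (K →+* ℂ)} {σ : K →+* ℂ}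
    (hσ : σ ∈ S) : HS R σ ≤ VS R S :=
  le_iSup₂_of_le (f := fun (σ : K →+* ℂ) (_ : σ ∈ S) => HS R σ) σ hσ le_rfl

/-- The multiplier of an element of `g`. -/
private theorem gen_mult [Nonempty ι] (D : LData g F) {x : Matrix ι ι ℂ} (hx : x ∈ g) :
    x.transpose * F + F * x =
      (2 * x.trace / Fintype.card ι) • F := by
  obtain ⟨κ, hκ⟩ := D.sim x hx
  have hdet : F.det ≠ 0 := ((Matrix.isUnit_iff_isUnit_det F).1 D.unit).ne_zero
  have hFF : F * F⁻¹ = 1 := Matrix.mul_nonsing_inv F (isUnit_iff_ne_zero.mpr hdet)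
  have hFF' : F⁻¹ * F = 1 := Matrix.nonsing_inv_mul F (isUnit_iff_ne_zero.mpr hdet)
  have h1 : x.transpose + F * x * F⁻¹ = κ • (1 : Matrix ι ι ℂ) := by
    have h2 := congrArg (fun M => M * F⁻¹) hκ
    simp only [Matrix.add_mul, Matrix.smul_mul, Matrix.mul_assoc, hFF, Matrix.mul_one] at h2
    rw [Matrix.mul_assoc]
    exact h2
  have h3 := congrArg Matrix.trace h1
  rw [Matrix.trace_add, Matrix.trace_transpose, Matrix.trace_smul, Matrix.trace_one,
    Matrix.mul_assoc, Matrix.trace_mul_comm F, Matrix.mul_assoc, hFF', Matrix.mul_one,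
    smul_eq_mul] at h3
  have hc : (Fintype.card ι : ℂ) ≠ 0 := by
    exact_mod_cast Fintype.card_ne_zero
  rw [hκ]
  congr 1
  rw [eq_div_iff hc, ← h3]
  ring

private theorem gen_map_mulVec (τ : ℂ →+* ℂ) (x : Matrix ι ι ℂ) (u : ι → ℂ) :
    (x.map τ).mulVec (fun i => τ (u i)) = fun i => τ (x.mulVec u i) := by
  funext i
  simp only [Matrix.mulVec, dotProduct, Matrix.map_apply, map_sum, map_mul]

/-- The eigenspaces are conjugate. -/
private theorem gen_HS (τ : ℂ →+* ℂ) (R : K →+* Matrix ι ι ℚ) (σ : K →+* ℂ) :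
    cj τ (HS R σ) = HS R (τ.comp σ) := by
  apply Submodule.eq_of_le_of_finrank_eq (cj_HS_le τ R σ)
  rw [cj_rank]
  have h1 := (HS_decomp R).2.2 σ
  have h2 := (HS_decomp R).2.2 (τ.comp σ)
  have h3 : 0 < finrank ℚ K := finrank_pos
  exact Nat.eq_of_mul_eq_mul_right h3 (h1.trans h2.symm)

/-- Composition with an endomorphism of `ℂ` which preserves `S` permutes the embeddings
in `S`. -/
private theorem gen_surj {S : Set (K →+* ℂ)} (τ : ℂ →+* ℂ) (hτ : ∀ σ ∈ S, τ.comp σ ∈ S)
    {σ : K →+* ℂ} (hσ : σ ∈ S) : ∃ σ' ∈ S, τ.comp σ' = σ := by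
  have hinj : Function.Injective (fun φ : S => (⟨τ.comp φ.1, hτ φ.1 φ.2⟩ : S)) := by
    intro φ ψ h
    apply Subtype.ext
    ext x
    exact τ.injective (congrArg (fun f : K →+* ℂ => f x) (congrArg Subtype.val h))
  obtain ⟨σ', hσ'⟩ := Finite.injective_iff_surjective.mp hinj ⟨σ, hσ⟩
  exact ⟨σ'.1, σ'.2, congrArg Subtype.val hσ'⟩

/-- The set `S` contains half of the embeddings. -/
private theorem gen_half (S : Set (K →+* ℂ)) [DecidablePred fun σ : K →+* ℂ => σ ∈ S]
    (hS : ∀ σ, σ ∈ S ↔ (starRingEnd ℂ).comp σ ∉ S) :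
    2 * Fintype.card {σ : K →+* ℂ // σ ∈ S} = finrank ℚ K := by
  have hcc : ∀ σ : K →+* ℂ, (starRingEnd ℂ).comp ((starRingEnd ℂ).comp σ) = σ := by
    intro σ
    ext x
    simp
  have hcard : Fintype.card {σ : K →+* ℂ // σ ∈ S} =
      Fintype.card {σ : K →+* ℂ // ¬ σ ∈ S} := by
    refine Fintype.card_congr ⟨fun σ => ⟨(starRingEnd ℂ).comp σ.1, (hS σ.1).1 σ.2⟩,
      fun σ => ⟨(starRingEnd ℂ).comp σ.1, ?_⟩, ?_, ?_⟩
    · rw [hS, hcc]
      exact σ.2
    · intro σ
      exact Subtype.ext (hcc σ.1)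
    · intro σ
      exact Subtype.ext (hcc σ.1)
  have h1 := Fintype.card_subtype_compl (fun σ : K →+* ℂ => σ ∈ S)
  have h2 := Fintype.card_subtype_le (fun σ : K →+* ℂ => σ ∈ S)
  have h3 := NumberField.Embeddings.card K ℂ
  omega

/-- T4 (file Gen.lean): `CoprimeSig.coroots` / `PrimeSig.coroots` for `LData`. -/
theorem coroots (D : LData g F) (hK : ∀ r, ∀ x ∈ g, x * ratM (R r) = ratM (R r) * x)
    (htg : t ≤ g) (hone : (1 : Matrix ι ι ℂ) ∈ t) (hconj : ∀ σ : ℂ →+* ℂ, ∀ x ∈ t, x.map σ ∈ t)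
    (S S' : Set (K →+* ℂ)) (hS : ∀ σ, σ ∈ S ↔ (starRingEnd ℂ).comp σ ∉ S) (hS' : S' ⊆ S)
    (σ₀ : K →+* ℂ) (hσ₀ : σ₀ ∈ S')
    (htr : ∀ σ ∈ S, ∃ τ : ℂ →+* ℂ, τ.comp σ₀ = σ ∧ ∀ σ' ∈ S, τ.comp σ' ∈ S)
    {n a : ℕ} (ha0 : a ≠ 0) (ha : 4 * a ≠ Fintype.card ι)
    (v : Basis (Fin n) ℂ (VS R S')) (x : Fin n → Matrix ι ι ℂ) (hxt : ∀ i, x i ∈ t)
    (hxv : ∀ i j, (x i).mulVec (v j : ι → ℂ) = if j = i then (v j : ι → ℂ) else 0)
    (hx0 : ∀ i, ∀ σ ∈ S, σ ∉ S' → ∀ w ∈ HS R σ, (x i).mulVec w = 0)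
    (hxtr : ∀ i, (x i).trace = (Fintype.card ι : ℂ) / (2 * a)) :
    ∃ (I : Type) (_ : Fintype I) (_ : DecidableEq I) (w : I → ι → ℂ), LinearIndependent ℂ w ∧
      (Submodule.span ℂ (Set.range w) : Submodule ℂ (ι → ℂ)) = VS R S ∧
      ∀ i, ∃ c ∈ t, (∀ j, c.mulVec (w j) = if j = i then w j else 0) ∧
        c.transpose * F + F * c = 0 := by
  classical
  -- vectors of `VS R S'` in the basis
  have hrepr : ∀ u (hu : u ∈ VS R S'), u = ∑ j, (v.repr ⟨u, hu⟩ j) • (v j : ι → ℂ) := by
    intro u hu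
    have h3 := congrArg (VS R S').subtype (v.sum_repr ⟨u, hu⟩)
    rw [map_sum] at h3
    exact h3.symm
  have hxu : ∀ i u (hu : u ∈ VS R S'), (x i).mulVec u = (v.repr ⟨u, hu⟩ i) • (v i : ι → ℂ) := by
    intro i u hu
    conv_lhs => rw [hrepr u hu]
    rw [Matrix.mulVec_sum, Finset.sum_eq_single i]
    · rw [Matrix.mulVec_smul, hxv, if_pos rfl]
    · intro j _ hj
      rw [Matrix.mulVec_smul, hxv, if_neg hj, smul_zero]
    · intro h
      exact absurd (Finset.mem_univ i) h
  have hxK : ∀ i r, x i * ratM (R r) = ratM (R r) * x i := fun i r => hK r _ (htg (hxt i))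
  -- the part of the basis in the eigenspace of `σ₀`
  let Q : Type := {j : Fin n // (v j : ι → ℂ) ∈ HS R σ₀}
  let _ : Fintype Q := inferInstanceAs (Fintype {j : Fin n // (v j : ι → ℂ) ∈ HS R σ₀})
  let _ : DecidableEq Q := inferInstanceAs (DecidableEq {j : Fin n // (v j : ι → ℂ) ∈ HS R σ₀})
  have hliQ : LinearIndependent ℂ (fun j : Q => (v j.1 : ι → ℂ)) := by
    have h1 : LinearIndependent ℂ (fun j => (v j : ι → ℂ)) :=
      v.linearIndependent.map' (VS R S').subtype (Submodule.ker_subtype _)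
    exact h1.comp _ Subtype.val_injective
  have hQspan : HS R σ₀ = Submodule.span ℂ (Set.range fun j : Q => (v j.1 : ι → ℂ)) := by
    apply le_antisymm
    · intro u hu
      have hu' : u ∈ VS R S' := gen_le_VS R hσ₀ hu
      rw [hrepr u hu']
      refine Submodule.sum_mem _ fun j _ => ?_
      by_cases hj : v.repr ⟨u, hu'⟩ j = 0
      · rw [hj, zero_smul]
        exact Submodule.zero_mem _
      · have h1 : (x j).mulVec u ∈ HS R σ₀ := gen_pres (hxK j) σ₀ hu
        rw [hxu j u hu'] at h1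
        have h2 : (v j : ι → ℂ) ∈ HS R σ₀ := (Submodule.smul_mem_iff _ hj).1 h1
        exact Submodule.smul_mem _ _ (Submodule.subset_span ⟨⟨j, h2⟩, rfl⟩)
    · rw [Submodule.span_le]
      rintro _ ⟨j, rfl⟩
      exact j.2
  have hQcard : finrank ℂ (HS R σ₀) = Fintype.card Q := by
    rw [hQspan, finrank_span_eq_card hliQ]
  -- the elements `x i` vanish on the other eigenspaces
  have hxσ : ∀ j : Q, ∀ σ ∈ S, σ ≠ σ₀ → ∀ u ∈ HS R σ, (x j.1).mulVec u = 0 := by
    intro j σ hσ hne u hu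
    by_cases hσ' : σ ∈ S'
    · have h1 : (x j.1).mulVec u ∈ HS R σ := gen_pres (hxK j.1) σ hu
      have h2 : (x j.1).mulVec u ∈ HS R σ₀ := by
        rw [hxu j.1 u (gen_le_VS R hσ' hu)]
        exact Submodule.smul_mem _ _ j.2
      have h3 := ((HS_decomp R).2.1.pairwiseDisjoint hne).le_bot ⟨h1, h2⟩
      exact (Submodule.mem_bot ℂ).1 h3
    · exact hx0 j.1 σ hσ hσ' u hu
  choose τ hτ using fun σ : {σ : K →+* ℂ // σ ∈ S} => htr σ.1 σ.2
  set w : {σ : K →+* ℂ // σ ∈ S} × Q → ι → ℂ :=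
    fun p i => τ p.1 ((v p.2.1 : ι → ℂ) i) with hw
  set y : {σ : K →+* ℂ // σ ∈ S} × Q → Matrix ι ι ℂ := fun p => (x p.2.1).map (τ p.1) with hy
  have hyt : ∀ p, y p ∈ t := fun p => hconj _ _ (hxt _)
  have hwHS : ∀ p, w p ∈ HS R p.1.1 := by
    intro p
    have h1 : w p ∈ cj (τ p.1) (HS R σ₀) := Submodule.subset_span ⟨_, p.2.2, rfl⟩
    rw [gen_HS, (hτ p.1).1] at h1
    exact h1
  have hyw : ∀ p q, (y p).mulVec (w q) = if q = p then w q else 0 := by
    intro p q
    by_cases hpq : q.1 = p.1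
    · simp only [hw, hy, hpq]
      rw [gen_map_mulVec, hxv]
      by_cases h2 : q.2 = p.2
      · rw [if_pos (congrArg Subtype.val h2), if_pos (Prod.ext hpq h2)]
      · rw [if_neg (fun h => h2 (Subtype.ext h)), if_neg (fun h => h2 (congrArg Prod.snd h))]
        funext i
        simp
    · rw [if_neg (fun h => hpq (congrArg Prod.fst h))]
      obtain ⟨σ', hσS, hσ'⟩ := gen_surj (τ p.1) (hτ p.1).2 q.1.2
      have h1 : σ' ≠ σ₀ := by
        intro h
        apply hpq
        apply Subtype.ext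
        rw [← hσ', h, (hτ p.1).1]
      have h3 : w q ∈ cj (τ p.1) (HS R σ') := by
        rw [gen_HS, hσ']
        exact hwHS q
      unfold cj at h3
      refine Submodule.span_induction (p := fun u _ => (y p).mulVec u = 0) ?_ ?_ ?_ ?_ h3
      · rintro _ ⟨u, hu, rfl⟩
        simp only [hy]
        rw [gen_map_mulVec, hxσ p.2 σ' hσS h1 u hu]
        funext i
        simp
      · exact Matrix.mulVec_zero _
      · intro u u' _ _ h4 h5
        rw [Matrix.mulVec_add, h4, h5, add_zero]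
      · intro c u _ h4
        rw [Matrix.mulVec_smul, h4, smul_zero]
  have hw0 : ∀ p, w p ≠ 0 := by
    intro p h
    apply v.ne_zero p.2.1
    apply Subtype.ext
    funext i
    have h1 := congrFun h i
    simp only [hw] at h1
    have h2 : τ p.1 ((v p.2.1 : ι → ℂ) i) = τ p.1 0 := by rw [h1, map_zero]; rfl
    exact (τ p.1).injective h2
  have hli : LinearIndependent ℂ w := by
    rw [Fintype.linearIndependent_iff]
    intro c hc p
    have h1 := congrArg (y p).mulVec hc
    rw [Matrix.mulVec_zero] at h1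
    have h2 : (y p).mulVec (∑ q, c q • w q) = c p • w p := by
      rw [Matrix.mulVec_sum]
      rw [Finset.sum_eq_single p]
      · rw [Matrix.mulVec_smul, hyw, if_pos rfl]
      · intro q _ hq
        rw [Matrix.mulVec_smul, hyw, if_neg hq, smul_zero]
      · intro h
        exact absurd (Finset.mem_univ p) h
    rw [h2] at h1
    exact (smul_eq_zero.mp h1).resolve_right (hw0 p)
  have hspanσ : ∀ σ : {σ : K →+* ℂ // σ ∈ S}, HS R σ.1 ≤ Submodule.span ℂ (Set.range w) := by
    intro σ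
    have h1 : HS R σ.1 = cj (τ σ) (HS R σ₀) := by rw [gen_HS, (hτ σ).1]
    rw [h1, cj_le_iff, hQspan, Submodule.span_le]
    rintro _ ⟨j, rfl⟩
    exact Submodule.subset_span ⟨(σ, j), rfl⟩
  have hspan : (Submodule.span ℂ (Set.range w) : Submodule ℂ (ι → ℂ)) = VS R S := by
    apply le_antisymm
    · rw [Submodule.span_le]
      rintro _ ⟨p, rfl⟩
      exact gen_le_VS R p.1.2 (hwHS p)
    · exact iSup₂_le fun σ hσ => hspanσ ⟨σ, hσ⟩
  refine ⟨_, inferInstance, inferInstance, w, hli, hspan, ?_⟩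
  intro p
  have hne : Nonempty ι := by
    by_contra h
    rw [not_nonempty_iff] at h
    exact hw0 p (Subsingleton.elim _ _)
  set Y : Matrix ι ι ℂ := ∑ q, y q with hY
  have hYt : Y ∈ t := Submodule.sum_mem _ fun q _ => hyt q
  have hc : (Fintype.card ι : ℂ) ≠ 0 := by
    exact_mod_cast Fintype.card_ne_zero
  have ha' : (a : ℂ) ≠ 0 := by exact_mod_cast ha0
  have hytr : ∀ q, (y q).trace = (Fintype.card ι : ℂ) / (2 * a) := by
    intro q
    have h1 : (y q).trace = τ q.1 ((x q.2.1).trace) := by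
      simp only [hy, Matrix.trace, Matrix.diag, Matrix.map_apply, map_sum]
    rw [h1, hxtr, map_div₀, map_mul, map_natCast, map_natCast, map_ofNat]
  have hcardI : (Fintype.card ({σ : K →+* ℂ // σ ∈ S} × Q) : ℂ) = Fintype.card ι / 2 := by
    have h1 := gen_half S hS
    have h2 := (HS_decomp R).2.2 σ₀
    rw [hQcard, ← h1] at h2
    rw [Fintype.card_prod, ← h2]
    push_cast
    ring
  have hYtr : Y.trace = (Fintype.card ι : ℂ) ^ 2 / (4 * a) := by
    rw [hY, Matrix.trace_sum, Finset.sum_congr rfl (fun q _ => hytr q), Finset.sum_const,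
      Finset.card_univ, nsmul_eq_mul, hcardI]
    field_simp
    ring
  set κ : ℂ := (Fintype.card ι : ℂ) / (2 * a) - 2 with hκ
  have hκ0 : κ ≠ 0 := by
    intro h
    rw [hκ, sub_eq_zero, div_eq_iff (by simpa using ha0)] at h
    apply ha
    have : ((Fintype.card ι : ℕ) : ℂ) = ((4 * a : ℕ) : ℂ) := by
      rw [h]
      push_cast
      ring
    exact (by exact_mod_cast this : Fintype.card ι = 4 * a).symm
  refine ⟨y p - (1 / (a * κ)) • (Y - 1), ?_, ?_, ?_⟩
  · exact t.sub_mem (hyt p) (t.smul_mem _ (t.sub_mem hYt hone))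
  · intro q
    have h1 : Y.mulVec (w q) = w q := by
      rw [hY, Matrix.sum_mulVec, Finset.sum_eq_single q]
      · rw [hyw, if_pos rfl]
      · intro q' _ hq'
        rw [hyw, if_neg (fun h => hq' h.symm)]
      · intro h
        exact absurd (Finset.mem_univ q) h
    rw [Matrix.sub_mulVec, Matrix.smul_mulVec, Matrix.sub_mulVec, h1, Matrix.one_mulVec, sub_self,
      smul_zero, sub_zero, hyw]
  · have h1 := gen_mult D (htg (hyt p))
    have h2 := gen_mult D (htg hYt)
    have h3 := gen_mult D (htg hone)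
    rw [hytr] at h1
    rw [hYtr] at h2
    rw [Matrix.trace_one] at h3
    have h4 : (y p - (1 / (a * κ)) • (Y - 1)).transpose * F + F * (y p - (1 / (a * κ)) • (Y - 1)) =
        ((y p).transpose * F + F * y p) - (1 / (a * κ)) • ((Y.transpose * F + F * Y) -
          ((1 : Matrix ι ι ℂ).transpose * F + F * 1)) := by
      simp only [Matrix.transpose_sub, Matrix.transpose_smul, Matrix.sub_mul, Matrix.mul_sub,
        Matrix.smul_mul, Matrix.mul_smul, smul_sub, smul_add]
      abel
    have e1 : 2 * ((Fintype.card ι : ℂ) / (2 * a)) / Fintype.card ι = 1 / a := by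
      field_simp
    have e2 : 2 * ((Fintype.card ι : ℂ) ^ 2 / (4 * a)) / Fintype.card ι = κ + 2 := by
      rw [hκ]
      field_simp
      ring
    have e3 : 2 * (Fintype.card ι : ℂ) / Fintype.card ι = 2 := by
      field_simp
    rw [e1] at h1
    rw [e2] at h2
    rw [e3] at h3
    rw [h4, h1, h2, h3, ← sub_smul, smul_smul, ← sub_smul]
    convert zero_smul ℂ F using 2
    field_simp
    ring

/-- T4: `CoprimeSig.root_mem` (Lefschetz.lean) for `LData`. -/
theorem root_mem (D : LData g F) (T : Matrix ι ι ℂ) (δ : ℂ) (hδ : δ ≠ 0)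
    (hT : T * T = (δ * δ) • (1 : Matrix ι ι ℂ)) (hTg : ∀ x ∈ g, x * T = T * x)
    (hskew : T.transpose * F = -(F * T))
    (I : Type) [Fintype I] [DecidableEq I] (w : I → ι → ℂ)
    (hspan : (Submodule.span ℂ (Set.range w) : Submodule ℂ (ι → ℂ)) =
      Module.End.eigenspace (Matrix.toLin' T) δ)
    (hc : ∀ i, ∃ c ∈ g, (∀ j, c.mulVec (w j) = if j = i then w j else 0) ∧
      c.transpose * F + F * c = 0) : T ∈ g := by
  choose c hcg hcw hcs using hc
  set C : Matrix ι ι ℂ := ∑ i, c i with hC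
  have hCg : C ∈ g := Submodule.sum_mem _ fun i _ => hcg i
  have hCs : C.transpose * F = -(F * C) := by
    rw [hC, Matrix.transpose_sum, Finset.sum_mul, Finset.mul_sum, ← Finset.sum_neg_distrib]
    exact Finset.sum_congr rfl fun i _ => eq_neg_of_add_eq_zero_left (hcs i)
  have hCT : C * T = T * C := hTg C hCg
  have hCw : ∀ j, C.mulVec (w j) = w j := by
    intro j
    rw [hC, Matrix.sum_mulVec, Finset.sum_congr rfl fun i _ => hcw i j]
    simp
  have hCv : ∀ u ∈ Module.End.eigenspace (Matrix.toLin' T) δ, C.mulVec u = u := by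
    intro u hu
    rw [← hspan] at hu
    induction hu using Submodule.span_induction with
    | mem x hx =>
      obtain ⟨j, rfl⟩ := hx
      exact hCw j
    | zero => exact Matrix.mulVec_zero _
    | add x y _ _ hx hy => rw [Matrix.mulVec_add, hx, hy]
    | smul r x _ hx => rw [Matrix.mulVec_smul, hx]
  set P : Matrix ι ι ℂ := δ • C - T with hP
  have hPT : P * T = T * P := by
    rw [hP, sub_mul, mul_sub, Matrix.smul_mul, Matrix.mul_smul, hCT]
  have h1 : P * (T + δ • 1) = 0 := by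
    rw [← gen_inj, map_zero]
    refine LinearMap.ext fun u => ?_
    rw [Matrix.toLin'_apply, ← Matrix.mulVec_mulVec, LinearMap.zero_apply]
    have h2 : T.mulVec ((T + δ • 1).mulVec u) = δ • (T + δ • 1).mulVec u := by
      rw [Matrix.mulVec_mulVec, ← Matrix.smul_mulVec]
      congr 1
      rw [mul_add, hT, Matrix.mul_smul, mul_one, smul_add, smul_smul, add_comm]
    have h3 : (T + δ • 1).mulVec u ∈ Module.End.eigenspace (Matrix.toLin' T) δ := by
      rw [Module.End.mem_eigenspace_iff, Matrix.toLin'_apply]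
      exact h2
    rw [hP, Matrix.sub_mulVec, Matrix.smul_mulVec, hCv _ h3, h2, sub_self]
  have hPs : P.transpose * F = -(F * P) := by
    rw [hP, Matrix.transpose_sub, Matrix.transpose_smul, sub_mul, mul_sub, Matrix.smul_mul,
      Matrix.mul_smul, hCs, hskew]
    module
  have h4 : (δ • 1 - T) * P = 0 := by
    have h5 : (T + δ • 1).transpose * (P.transpose * F) = 0 := by
      rw [← mul_assoc, ← Matrix.transpose_mul, h1, Matrix.transpose_zero, zero_mul]
    rw [hPs, mul_neg, neg_eq_zero, ← mul_assoc, Matrix.transpose_add, Matrix.transpose_smul,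
      Matrix.transpose_one, add_mul, Matrix.smul_mul, one_mul, hskew] at h5
    obtain ⟨F₀, hF⟩ := D.unit
    have h6 : F * ((δ • 1 - T) * P) = 0 := by
      have h7 : F * (δ • 1 - T) =
          -(F * T) + δ • F := by
        rw [mul_sub, Matrix.mul_smul, mul_one, sub_eq_neg_add]
      rw [← mul_assoc, h7]
      exact h5
    rw [← hF] at h6
    exact (Units.mul_right_eq_zero F₀).1 h6
  have h5 : P = 0 := by
    have h6 : P * (δ • 1 - T) = 0 := by
      rw [mul_sub, hPT, Matrix.mul_smul, mul_one, ← h4, sub_mul, Matrix.smul_mul, one_mul]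
    have h7 : P * (T + δ • 1) + P * (δ • 1 - T) = (2 * δ) • P := by
      rw [← mul_add]
      have h8 : T + δ • 1 + (δ • 1 - T) = (2 * δ) • (1 : Matrix ι ι ℂ) := by
        module
      rw [h8, Matrix.mul_smul, mul_one]
    rw [h1, h6, add_zero] at h7
    exact (smul_eq_zero.1 h7.symm).resolve_left (mul_ne_zero two_ne_zero hδ)
  have h6 : T = δ • C := by
    rw [hP, sub_eq_zero] at h5
    exact h5.symm
  rw [h6]
  exact g.smul_mem _ hCg

/-- T4: `CoprimeSig.full_of_coroots` (FullG.lean) for `LData`. -/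
theorem full_of_coroots (D : LData g F) (T : Matrix ι ι ℂ) (δ : ℂ) (hδ : δ ≠ 0)
    (hT : T * T = (δ * δ) • (1 : Matrix ι ι ℂ)) (hTg : ∀ x ∈ g, x * T = T * x)
    (hskew : T.transpose * F = -(F * T))
    (I : Type) [Fintype I] [DecidableEq I] (w : I → ι → ℂ) (hw : LinearIndependent ℂ w)
    (hspan : (Submodule.span ℂ (Set.range w) : Submodule ℂ (ι → ℂ)) =
      Module.End.eigenspace (Matrix.toLin' T) δ)
    (hc : ∀ i, ∃ c ∈ g, (∀ j, c.mulVec (w j) = if j = i then w j else 0) ∧
      c.transpose * F + F * c = 0)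
    (M : Matrix ι ι ℂ)
    (hM : M.transpose * F + F * M = 0)
    (hcomm : ∀ Z : Matrix ι ι ℂ, (∀ x ∈ g, x * Z = Z * x) → M * Z = Z * M) : M ∈ g := by
  set e := F with he
  set ψ := fgPsi e with hψ
  have hskewE : e.transpose = -e := D.alt
  have halt : ∀ u v, ψ u v = -ψ v u := fgPsi_skew e hskewE
  have hzero : ∀ (x : Matrix ι ι ℂ), x.transpose * e + e * x = 0 →
      ∀ u v, ψ (x.mulVec u) v + ψ u (x.mulVec v) = 0 := by
    intro x hx u v
    have := fgPsi_sim e x 0 (by rw [hx, zero_smul]) u v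
    rwa [zero_mul] at this
  have hT0 : ∀ u v, ψ (T.mulVec u) v = -ψ u (T.mulVec v) := by
    intro u v
    rw [hψ, fgPsi_mulVec_left, fgPsi_mulVec_right, hskew, Matrix.neg_mulVec, dotProduct_neg]
  have hTT : ∀ u, T.mulVec (T.mulVec u) = (δ * δ) • u := by
    intro u
    rw [Matrix.mulVec_mulVec, hT, Matrix.smul_mulVec, Matrix.one_mulVec]
  -- isotropy
  have hiso : ∀ ε : ℂ, ε ≠ 0 → ∀ u v, T.mulVec u = ε • u → T.mulVec v = ε • v → ψ u v = 0 := by
    intro ε hε u v hu hv
    have h1 := hT0 u v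
    rw [hu, hv, map_smul, map_smul, LinearMap.smul_apply, smul_eq_mul] at h1
    have h2 : 2 * ε * ψ u v = 0 := by linear_combination h1
    rcases mul_eq_zero.1 h2 with h | h
    · exact absurd (by simpa using h) hε
    · exact h
  have hwT : ∀ i, T.mulVec (w i) = δ • w i := by
    intro i
    have h1 : w i ∈ Module.End.eigenspace (Matrix.toLin' T) δ := by
      rw [← hspan]; exact Submodule.subset_span ⟨i, rfl⟩
    rw [Module.End.mem_eigenspace_iff] at h1
    exact h1
  -- the projections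
  have hsplit : ∀ v : ι → ℂ, ∃ p q : ι → ℂ, v = p + q ∧ T.mulVec p = δ • p ∧
      T.mulVec q = (-δ) • q := by
    intro v
    refine ⟨(1 / 2 : ℂ) • (v + δ⁻¹ • T.mulVec v), (1 / 2 : ℂ) • (v - δ⁻¹ • T.mulVec v), ?_, ?_, ?_⟩
    · module
    · rw [Matrix.mulVec_smul, Matrix.mulVec_add, Matrix.mulVec_smul, hTT, smul_smul]
      have h1 : δ⁻¹ * (δ * δ) = δ := by field_simp
      have h2 : δ • δ⁻¹ • T.mulVec v = T.mulVec v := by
        rw [smul_smul, mul_inv_cancel₀ hδ, one_smul]
      rw [h1, smul_comm δ (1 / 2 : ℂ), smul_add δ, h2]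
      module
    · rw [Matrix.mulVec_smul, Matrix.mulVec_sub, Matrix.mulVec_smul, hTT, smul_smul]
      have h1 : δ⁻¹ * (δ * δ) = δ := by field_simp
      have h2 : (-δ) • δ⁻¹ • T.mulVec v = -T.mulVec v := by
        rw [smul_smul, neg_mul, mul_inv_cancel₀ hδ, neg_one_smul]
      rw [h1, smul_comm (-δ) (1 / 2 : ℂ), smul_sub (-δ), h2]
      module
  -- the dual basis
  have hsurj : ∀ i, ∃ v, T.mulVec v = (-δ) • v ∧ ∀ j, ψ (w j) v = if j = i then 1 else 0 := by
    intro i
    -- a functional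
    obtain ⟨f, hf⟩ : ∃ f : Module.Dual ℂ (ι → ℂ), ∀ j, f (w j) = if j = i then 1 else 0 := by
      obtain ⟨f, hf⟩ := LinearMap.exists_extend
        ((Finsupp.lapply (R := ℂ) i).comp hw.repr : Submodule.span ℂ (Set.range w) →ₗ[ℂ] ℂ)
      refine ⟨f, fun j => ?_⟩
      have h1 := LinearMap.congr_fun hf ⟨w j, Submodule.subset_span ⟨j, rfl⟩⟩
      simp only [LinearMap.comp_apply, Submodule.subtype_apply, LinearEquiv.coe_coe,
        Finsupp.lapply_apply] at h1
      rw [h1]
      have h2 : hw.repr ⟨w j, Submodule.subset_span ⟨j, rfl⟩⟩ = Finsupp.single j 1 :=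
        hw.repr_eq_single j _ rfl
      rw [h2, Finsupp.single_apply]
    have hinj : Function.Injective ψ.flip := by
      rw [← LinearMap.ker_eq_bot, LinearMap.ker_eq_bot']
      intro v hv
      exact gen_nd D v fun u => LinearMap.congr_fun hv u
    have hsur : Function.Surjective ψ.flip :=
      (LinearMap.injective_iff_surjective_of_finrank_eq_finrank
        (Subspace.dual_finrank_eq (K := ℂ) (V := ι → ℂ)).symm).1 hinj
    obtain ⟨v, hv⟩ := hsur f
    obtain ⟨p, q, hpq, hp, hq⟩ := hsplit v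
    refine ⟨q, hq, fun j => ?_⟩
    have h1 : ψ (w j) v = f (w j) := LinearMap.congr_fun hv (w j)
    rw [hpq, map_add, hiso δ hδ (w j) p (hwT j) hp, zero_add, hf] at h1
    exact h1
  choose w' hw'T hw' using hsurj
  have hww : ∀ i j, ψ (w i) (w j) = 0 := fun i j => hiso δ hδ _ _ (hwT i) (hwT j)
  have hw'w' : ∀ i j, ψ (w' i) (w' j) = 0 := fun i j =>
    hiso (-δ) (neg_ne_zero.2 hδ) _ _ (hw'T i) (hw'T j)
  have hww' : ∀ i j, ψ (w i) (w' j) = if i = j then 1 else 0 := fun i j => hw' j i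
  have hw'w : ∀ i j, ψ (w' i) (w j) = if j = i then -1 else 0 := by
    intro i j
    rw [halt, hww']
    split_ifs <;> simp
  -- a vector of V- is determined by the pairing with w
  have hdet : ∀ q : ι → ℂ, T.mulVec q = (-δ) • q → (∀ i, ψ (w i) q = 0) → q = 0 := by
    intro q hq h0
    refine gen_nd D q fun u => ?_
    obtain ⟨p, r, hpr, hp, hr⟩ := hsplit u
    change ψ u q = 0
    rw [hpr, map_add, LinearMap.add_apply, hiso (-δ) (neg_ne_zero.2 hδ) r q hr hq, add_zero]
    have h1 : p ∈ Submodule.span ℂ (Set.range w) := by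
      rw [hspan, Module.End.mem_eigenspace_iff]
      exact hp
    refine Submodule.span_induction (p := fun p _ => ψ p q = 0) ?_ ?_ ?_ ?_ h1
    · rintro _ ⟨i, rfl⟩
      exact h0 i
    · simp
    · intro x y _ _ hx hy
      rw [map_add, LinearMap.add_apply, hx, hy, add_zero]
    · intro c x _ hx
      rw [map_smul, LinearMap.smul_apply, hx, smul_zero]
  -- the basis
  let B : I ⊕ I → ι → ℂ := Sum.elim w w'
  have hli : LinearIndependent ℂ B := by
    rw [Fintype.linearIndependent_iff]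
    intro c hc0
    rw [Fintype.sum_sum_type] at hc0
    simp only [B, Sum.elim_inl, Sum.elim_inr] at hc0
    have h1 : ∀ i, c (Sum.inr i) = 0 := by
      intro i
      have h2 := congrArg (ψ (w i)) hc0
      rw [map_add, map_sum, map_sum, map_zero] at h2
      simp only [map_smul, hww, hww', smul_eq_mul, mul_zero, Finset.sum_const_zero, zero_add,
        mul_ite, mul_one] at h2
      rw [Finset.sum_ite_eq] at h2
      simpa using h2
    have h3 : ∑ i, c (Sum.inl i) • w i = 0 := by
      rw [← hc0]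
      simp [h1]
    rw [Fintype.linearIndependent_iff] at hw
    rintro (i | i)
    · exact hw _ h3 i
    · exact h1 i
  have hsp : ⊤ ≤ Submodule.span ℂ (Set.range B) := by
    intro v _
    obtain ⟨p, q, rfl, hp, hq⟩ := hsplit v
    have h1 : p ∈ Submodule.span ℂ (Set.range w) := by
      rw [hspan, Module.End.mem_eigenspace_iff]
      exact hp
    have h2 : Submodule.span ℂ (Set.range w) ≤ Submodule.span ℂ (Set.range B) := by
      refine Submodule.span_mono ?_
      rintro _ ⟨i, rfl⟩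
      exact ⟨Sum.inl i, rfl⟩
    refine Submodule.add_mem _ (h2 h1) ?_
    have h3 : q = ∑ j, ψ (w j) q • w' j := by
      rw [← sub_eq_zero]
      refine hdet _ ?_ ?_
      · rw [Matrix.mulVec_sub, hq, Matrix.mulVec_sum, smul_sub, Finset.smul_sum]
        congr 1
        refine Finset.sum_congr rfl fun j _ => ?_
        rw [Matrix.mulVec_smul, hw'T, smul_comm]
      · intro i
        rw [map_sub, map_sum]
        simp only [map_smul, hww', smul_eq_mul, mul_ite, mul_one, mul_zero]
        rw [Finset.sum_ite_eq]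
        simp
    rw [h3]
    refine Submodule.sum_mem _ fun j _ => Submodule.smul_mem _ _ (Submodule.subset_span ⟨Sum.inr j, rfl⟩)
  let b : Basis (I ⊕ I) ℂ (ι → ℂ) := Basis.mk hli hsp
  have hb1 : ∀ i, b (Sum.inl i) = w i := fun i => by simp [b, B]
  have hb2 : ∀ i, b (Sum.inr i) = w' i := fun i => by simp [b, B]
  -- the coroots
  have hcor : ∀ (i : I) (c : Matrix ι ι ℂ), c ∈ g → (∀ j, c.mulVec (w j) = if j = i then w j else 0) →
      c.transpose * e + e * c = 0 → ∀ j, c.mulVec (w' j) = if j = i then -w' j else 0 := by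
    intro i c hcg hcw hce j
    have h0 := hzero c hce
    rw [← sub_eq_zero]
    refine hdet _ ?_ ?_
    · have h1 : T.mulVec (c.mulVec (w' j)) = (-δ) • c.mulVec (w' j) := by
        rw [Matrix.mulVec_mulVec, ← hTg c hcg, ← Matrix.mulVec_mulVec, hw'T, Matrix.mulVec_smul]
      rw [Matrix.mulVec_sub, h1, smul_sub]
      congr 1
      split_ifs
      · rw [Matrix.mulVec_neg, hw'T, smul_neg]
      · rw [Matrix.mulVec_zero, smul_zero]
    · intro k
      have h1 := h0 (w k) (w' j)
      rw [hcw] at h1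
      rw [map_sub]
      by_cases hki : k = i
      · subst hki
        rw [if_pos rfl] at h1
        by_cases hjk : j = k
        · subst hjk
          rw [if_pos rfl, map_neg, sub_neg_eq_add, add_comm]
          exact h1
        · rw [if_neg hjk, map_zero, sub_zero]
          rw [hww', if_neg (fun h => hjk h.symm), zero_add] at h1
          exact h1
      · rw [if_neg hki, map_zero, LinearMap.zero_apply, zero_add] at h1
        rw [h1, zero_sub]
        by_cases hji : j = i
        · subst hji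
          rw [if_pos rfl, map_neg, hww', if_neg hki]; simp
        · rw [if_neg hji, map_zero, neg_zero]
  -- apply full_sp
  have hfin := Pool.Agent.OneFrob.full_sp (𝕂 := ℂ) b Sum.swap (fun i => Sum.swap_swap i)
    (by rintro (i | i) <;> simp) ψ halt (by
      rintro (i | i) (j | j)
      · rw [hb1, hb1, hww]; simp
      · rw [hb1, hb2, hww']; simp [eq_comm]
      · rw [hb2, hb1, hw'w]; simp
      · rw [hb2, hb2, hw'w']; simp) (endo g) (by
      rintro _ ⟨x, hx, rfl⟩ _ ⟨y, hy, rfl⟩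
      refine ⟨x * y - y * x, D.lie x hx y hy, ?_⟩
      simp only [LinearEquiv.coe_coe, map_sub, Matrix.toLin'_mul]
      rfl) (by
      rintro _ ⟨x, hx, rfl⟩
      obtain ⟨κ, hκ⟩ := D.sim x hx
      exact ⟨κ, fun u v => fgPsi_sim e x κ hκ u v⟩) (by
      intro a h hh
      rcases a with i | i
      · obtain ⟨c, hcg, hcw, hce⟩ := hc i
        have hcw' := hcor i c hcg hcw hce
        have : h = Matrix.toLin' c := by
          refine b.ext fun k => ?_
          rw [hh k]
          rcases k with k | k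
          · rw [hb1, Matrix.toLin'_apply, hcw]
            by_cases hk : k = i <;> simp [hk]
          · rw [hb2, Matrix.toLin'_apply, hcw']
            by_cases hk : k = i <;> simp [hk]
        rw [this, mem_endo]
        exact hcg
      · obtain ⟨c, hcg, hcw, hce⟩ := hc i
        have hcw' := hcor i c hcg hcw hce
        have : h = Matrix.toLin' (-c) := by
          refine b.ext fun k => ?_
          rw [hh k]
          rcases k with k | k
          · rw [hb1, Matrix.toLin'_apply, Matrix.neg_mulVec, hcw]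
            by_cases hk : k = i <;> simp [hk]
          · rw [hb2, Matrix.toLin'_apply, Matrix.neg_mulVec, hcw']
            by_cases hk : k = i <;> simp [hk]
        rw [this, mem_endo]
        exact g.neg_mem hcg) (by
      intro W hW
      obtain ⟨W', h1, h2⟩ := D.ss W (fun x hx w hw => hW (Matrix.toLin' x) (mem_endo.2 hx) w hw)
      refine ⟨W', h1, ?_⟩
      rintro _ ⟨x, hx, rfl⟩ w hw
      exact h2 x hx w hw) (D := Matrix.toLin' M) (fun u v => hzero M hM u v) (by
      intro c hcc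
      obtain ⟨Z, rfl⟩ : ∃ Z, c = Matrix.toLin' Z := ⟨LinearMap.toMatrix' c, by simp⟩
      have h1 := hcomm Z (by
        intro x hx
        have h2 := hcc _ (mem_endo.2 hx)
        have h3 : Matrix.toLin' (Z * x) = Matrix.toLin' (x * Z) := by
          rw [Matrix.toLin'_mul, Matrix.toLin'_mul]; exact h2
        exact ((Matrix.toLin' (R := ℂ)).injective h3).symm)
      have h4 : Matrix.toLin' (Z * M) = Matrix.toLin' (M * Z) := by rw [h1]
      rw [Matrix.toLin'_mul, Matrix.toLin'_mul] at h4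
      exact h4)
  exact mem_endo.1 hfin

end Pool.Agent.EllSig
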