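import Pool.Agent.PrimeSig.Htr
import Pool.Agent.EllSig.Defs

/-!
# Transitivity on the weights of a Galois orbit of embeddings, from isotypic eigenspaces
-/

set_option autoImplicit false

namespace Pool.Agent.EllSig

open Module Pool.Agent.CoprimeSig Pool.Agent.PrimeSig

variable {ι : Type} [Fintype ι] [DecidableEq ι] {g t : Submodule ℂ (Matrix ι ι ℂ)}
  {K : Type} [Field K] [NumberField K] {R : K →+* Matrix ι ι ℚ}

private theorem comp_inj {L : Type*} [Field L] (τ : ℂ →+* ℂ) :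
    Function.Injective fun σ : L →+* ℂ => τ.comp σ := by
  intro σ σ' h
  ext r
  exact τ.injective (RingHom.congr_fun h r)

/-- Transitivity on all weight spaces if the eigenspaces of `K` are isotypic. -/
theorem pt_trans (C : Cartan (endo g) (endo t)) (ht : ∀ σ : ℂ →+* ℂ, ∀ x ∈ t, x.map σ ∈ t)
    (hK : ∀ x ∈ endo g, ∀ σ, ∀ w ∈ HS R σ, x w ∈ HS R σ)
    (hiso : ∀ σ : K →+* ℂ, ∀ U ≤ HS R σ, (∀ x ∈ endo g, ∀ u ∈ U, x u ∈ U) →
      (∀ z : End ℂ (ι → ℂ), (∀ x ∈ endo g, z * x = x * z) → (∀ w ∈ HS R σ, z w ∈ HS R σ) →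
        ∀ u ∈ U, z u ∈ U) → U = ⊥ ∨ U = HS R σ) (c : ℂ)
    (O : Set (Pt (endo t) R c)) (hne : O.Nonempty)
    (hst : ∀ s τ, TSym (endo t) R s τ → ∀ p ∈ O, ∀ q : Pt (endo t) R c,
      s (Wp p) = Wp q → q.1 = τ.comp p.1 → q ∈ O) : O = Set.univ := by
  have hKt : ∀ x ∈ endo t, ∀ σ, ∀ w ∈ HS R σ, x w ∈ HS R σ := fun x hx => hK x (C.le hx)
  have h0 : ∀ x ∈ endo g, ∀ w ∈ (⊥ : Submodule ℂ (ι → ℂ)), x w ∈ (⊥ : Submodule ℂ (ι → ℂ)) := by
    intro x _ w hw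
    rw [(Submodule.mem_bot ℂ).1 hw, map_zero]
    exact Submodule.zero_mem _
  -- the part over `σ`
  set U : (K →+* ℂ) → Submodule ℂ (ι → ℂ) := fun σ => ⨆ p ∈ {p : Pt (endo t) R c | p ∈ O ∧ p.1 = σ},
    Wp p with hU
  have hle : ∀ p ∈ O, Wp p ≤ U p.1 := fun p hp => le_iSup₂_of_le p ⟨hp, rfl⟩ le_rfl
  have hUHS : ∀ σ, U σ ≤ HS R σ := by
    intro σ
    refine iSup₂_le ?_
    rintro p ⟨_, rfl⟩ w hw
    exact hw.1
  have hmaps : ∀ σ, ∀ x : End ℂ (ι → ℂ), (∀ p ∈ O, p.1 = σ → ∀ u ∈ Wp p, x u ∈ U σ) →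
      ∀ u ∈ U σ, x u ∈ U σ := by
    intro σ x hx
    have h1 : U σ ≤ (U σ).comap x := iSup₂_le fun p hp u hu => hx p hp.1 hp.2 u hu
    exact fun u hu => h1 hu
  have hsym : ∀ s τ, TSym (endo t) R s τ → ∀ p ∈ O, s (Wp p) ≤ U (τ.comp p.1) := by
    intro s τ h p hp
    obtain ⟨π, _, hπ, hπ1⟩ := tsym_act C.toTor hKt h
    rw [hπ, ← hπ1]
    exact hle _ (hst s τ h p hp _ (hπ p) (hπ1 p))
  have hroot : ∀ σ, ∀ x : End ℂ (ι → ℂ), ∀ α : End ℂ (ι → ℂ) → ℂ,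
      IsRoot (endo g) (endo t) α x → ∀ u ∈ U σ, x u ∈ U σ := by
    intro σ x α hα
    refine hmaps σ x ?_
    rintro p hp rfl u hu
    by_cases hxu : x u = 0
    · rw [hxu]
      exact Submodule.zero_mem _
    by_cases hε : ∃ ε ∈ EE (endo t) ⊥ c, α ε ≠ 0
    · obtain ⟨ε, hε, hαε⟩ := hε
      have hx0 : x ≠ 0 := by
        rintro rfl
        exact hxu rfl
      obtain ⟨h2, y, P⟩ := exists_opp C hα hx0 hε.1 hε.2.1 hαε
      have h3 := hsym _ _ (tsym_wl C hK P) p hp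
        (root_move C (fun x hx => hK x hx p.1) h0 P hε h2 hu hxu)
      rwa [RingHom.id_comp] at h3
    · push Not at hε
      refine hle p hp ⟨hK x hα.mem p.1 u hu.1, fun y hy => ?_⟩
      have h2 : y (x u) = x (y u) := by
        have h3 := hα.root y hy.1
        rw [hε y hy, zero_smul, sub_eq_zero] at h3
        exact LinearMap.congr_fun h3 u
      rw [h2]
      exact ⟨fun h => by rw [(hu.2 y hy).1 h], fun h => by rw [(hu.2 y hy).2 h, map_zero]⟩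
  have hg : ∀ σ, ∀ x ∈ endo g, ∀ u ∈ U σ, x u ∈ U σ := by
    intro σ x hx
    let N : Submodule ℂ (End ℂ (ι → ℂ)) :=
      { carrier := {x | ∀ u ∈ U σ, x u ∈ U σ}
        add_mem' := fun {a b} ha hb u hu => (U σ).add_mem (ha u hu) (hb u hu)
        zero_mem' := fun u _ => (U σ).zero_mem
        smul_mem' := fun r a ha u hu => (U σ).smul_mem r (ha u hu) }
    have h1 : Submodule.span ℂ {z | ∃ α, IsRoot (endo g) (endo t) α z} ≤ N :=
      Submodule.span_le.mpr fun z ⟨α, hz⟩ => hroot σ z α hz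
    exact h1 (mem_span_roots C hx)
  have hdich : ∀ σ, U σ = ⊥ ∨ U σ = HS R σ := by
    intro σ
    refine hiso σ (U σ) (hUHS σ) (hg σ) fun z hz hzW => hmaps σ z ?_
    rintro p hp rfl u hu
    refine hle p hp ⟨hzW u hu.1, fun y hy => ?_⟩
    have h2 : y (z u) = z (y u) := (LinearMap.congr_fun (hz y (C.le hy.1)) u).symm
    rw [h2]
    exact ⟨fun h => by rw [(hu.2 y hy).1 h], fun h => by rw [(hu.2 y hy).2 h, map_zero]⟩
  obtain ⟨p₀, hp₀⟩ := hne
  have h1 : U p₀.1 = HS R p₀.1 := by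
    refine (hdich p₀.1).resolve_left fun h => ?_
    have h2 := hle p₀ hp₀
    rw [h] at h2
    exact p₀.2.2.2 (le_bot_iff.mp h2)
  have hall : ∀ σ, U σ = HS R σ := by
    intro σ
    obtain ⟨τ, hτ⟩ := exists_comp_eq p₀.1 σ
    refine le_antisymm (hUHS σ) ?_
    have h2 : cj τ (HS R p₀.1) ≤ U σ := by
      rw [← h1, hU]
      change cj τ (⨆ p ∈ {p : Pt (endo t) R c | p ∈ O ∧ p.1 = p₀.1}, Wp p) ≤ _
      rw [← sSup_image, cj_sSup]
      refine sSup_le ?_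
      rintro _ ⟨_, ⟨p, hp, rfl⟩, rfl⟩
      have h3 := hsym _ _ (tsym_cj R ht τ) p hp.1
      rwa [hp.2, hτ] at h3
    have h3 : cj τ (HS R p₀.1) = HS R σ := by
      have h4 := cj_HS_le τ R p₀.1
      rw [hτ] at h4
      refine Submodule.eq_of_le_of_finrank_eq h4 ?_
      rw [cj_rank]
      exact Nat.eq_of_mul_eq_mul_right finrank_pos
        (((HS_decomp R).2.2 p₀.1).trans ((HS_decomp R).2.2 σ).symm)
    rw [← h3]
    exact h2
  refine Set.eq_univ_of_forall fun q => ?_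
  by_contra hqO
  have h2 := Wp_indep (R := R) (c := c) C.toTor hKt q
  have h3 : Wp q ≤ ⨆ (p : Pt (endo t) R c) (_ : p ≠ q), Wp p := by
    have h4 : Wp q ≤ U q.1 := by
      rw [hall]
      exact fun w hw => hw.1
    refine h4.trans (iSup₂_le fun p hp => ?_)
    refine le_iSup₂_of_le (f := fun (p : Pt (endo t) R c) (_ : p ≠ q) => Wp p) p ?_ le_rfl
    rintro rfl
    exact hqO hp.1
  exact q.2.2.2 (le_bot_iff.mp (h2 le_rfl h3))

section

variable {t : Submodule ℂ (End ℂ (ι → ℂ))} {c : ℂ}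

omit [NumberField K] in
private theorem Wp_ne_bot (p : Pt t R c) : Wp p ≠ ⊥ := p.2.2.2

omit [NumberField K] in
private theorem Wp_inj {p q : Pt t R c} (h1 : p.1 = q.1) (h2 : Wp p = Wp q) : p = q := by
  obtain ⟨σ, A⟩ := p
  obtain ⟨σ', B⟩ := q
  simp only at h1
  subst h1
  have h3 : (A : Set (End ℂ (ι → ℂ))) = B := core_wt_unique A.2 B.2 h2
  rw [Subtype.ext h3]

omit [NumberField K] in
/-- The restriction of a weight to the idempotents which vanish on `W''`. -/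
private theorem restr {W' W'' : Submodule ℂ (ι → ℂ)} (p : Pt t R c) (hp : HS R p.1 ≤ W') :
    Wp p ≤ Wt t W' W'' c ((p.2 : Set (End ℂ (ι → ℂ))) ∩ EE t W'' c) := by
  intro w hw
  refine ⟨hp hw.1, fun y hy => ?_⟩
  have hy' : y ∈ EE t ⊥ c := ⟨hy.1, hy.2.1, fun w hw => by
    rw [(Submodule.mem_bot ℂ).1 hw, map_zero], hy.2.2.2⟩
  exact ⟨fun h => (hw.2 y hy').1 h.1, fun h => (hw.2 y hy').2 fun h' => h ⟨h', hy⟩⟩

omit [NumberField K] in
private theorem restr_eq {W' W'' : Submodule ℂ (ι → ℂ)} (p : Pt t R c)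
    {B : Set (End ℂ (ι → ℂ))} (hB : B ⊆ EE t W'' c) (h : Wp p ≤ Wt t W' W'' c B) :
    (p.2 : Set (End ℂ (ι → ℂ))) ∩ EE t W'' c = B := by
  obtain ⟨w, hw, hw0⟩ := (Submodule.ne_bot_iff _).mp (Wp_ne_bot p)
  have hwB := h hw
  have key : ∀ y ∈ EE t W'' c, (y ∈ (p.2 : Set (End ℂ (ι → ℂ))) ↔ y ∈ B) := by
    intro y hy
    have hy' : y ∈ EE t ⊥ c := ⟨hy.1, hy.2.1, fun w hw => by
      rw [(Submodule.mem_bot ℂ).1 hw, map_zero], hy.2.2.2⟩
    constructor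
    · intro h1
      by_contra h2
      exact hw0 (((hw.2 y hy').1 h1).symm.trans ((hwB.2 y hy).2 h2))
    · intro h1
      by_contra h2
      exact hw0 (((hwB.2 y hy).1 h1).symm.trans ((hw.2 y hy').2 h2))
  ext y
  constructor
  · rintro ⟨h1, h2⟩
    exact (key y h2).1 h1
  · intro h1
    exact ⟨(key y (hB h1)).2 h1, hB h1⟩

/-- Every weight on `VS R S'` is the restriction of a weight on some eigenspace. -/
private theorem exists_restr (T : Tor t) (hR : ∀ x ∈ t, ∀ σ, ∀ w ∈ HS R σ, x w ∈ HS R σ)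
    {S' : Set (K →+* ℂ)} {W'' : Submodule ℂ (ι → ℂ)} {B : Set (End ℂ (ι → ℂ))}
    (hB : B ∈ Om t (VS R S') W'' c) : ∃ p : Pt t R c, p.1 ∈ S' ∧
      (p.2 : Set (End ℂ (ι → ℂ))) ∩ EE t W'' c = B := by
  have hW' : ∀ x ∈ t, ∀ w ∈ VS R S', x w ∈ VS R S' := by
    intro x hx w hw
    have h1 : VS R S' ≤ (VS R S').comap x := iSup₂_le fun σ hσ u hu =>
      (le_iSup₂_of_le (f := fun (σ : K →+* ℂ) (_ : σ ∈ S') => HS R σ) σ hσ le_rfl) (hR x hx σ u hu)
    exact h1 hw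
  obtain ⟨-, -, hind⟩ := weights (W'' := W'') T hW' c
  by_contra hcon
  push Not at hcon
  have h1 := hind ⟨B, hB⟩
  have h2 : Wt t (VS R S') W'' c B ≤
      ⨆ (A : Om t (VS R S') W'' c) (_ : A ≠ ⟨B, hB⟩),
        Wt t (VS R S') W'' c (A : Set (End ℂ (ι → ℂ))) := by
    have h3 : Wt t (VS R S') W'' c B ≤ VS R S' := fun w hw => hw.1
    refine h3.trans ((iSup_Wp (c := c) T hR S').symm.le.trans ?_)
    refine iSup₂_le fun p hp => ?_
    have h4 : HS R p.1 ≤ VS R S' :=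
      le_iSup₂_of_le (f := fun (σ : K →+* ℂ) (_ : σ ∈ S') => HS R σ) p.1 hp le_rfl
    have h5 := restr (W'' := W'') p h4
    have h6 : (p.2 : Set (End ℂ (ι → ℂ))) ∩ EE t W'' c ∈ Om t (VS R S') W'' c := by
      refine ⟨Set.inter_subset_right, fun h => Wp_ne_bot p ?_⟩
      rw [h] at h5
      exact le_bot_iff.mp h5
    refine h5.trans (le_iSup₂_of_le (f := fun (A : Om t (VS R S') W'' c) (_ : A ≠ ⟨B, hB⟩) =>
      Wt t (VS R S') W'' c (A : Set (End ℂ (ι → ℂ)))) ⟨_, h6⟩ ?_ le_rfl)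
    intro h7
    exact hcon p hp (congrArg Subtype.val h7)
  exact hB.2 (le_bot_iff.mp (h1 le_rfl h2))

end

/-- The transitivity needed for the core theorem. -/
theorem htr_of (T : Tor (endo t)) (ht : ∀ σ : ℂ →+* ℂ, ∀ x ∈ t, x.map σ ∈ t)
    (hKt : ∀ x ∈ endo t, ∀ σ, ∀ w ∈ HS R σ, x w ∈ HS R σ) (c : ℂ)
    (hptr : ∀ O : Set (Pt (endo t) R c), O.Nonempty →
      (∀ s τ, TSym (endo t) R s τ → ∀ p ∈ O, ∀ q : Pt (endo t) R c,
        s (Wp p) = Wp q → q.1 = τ.comp p.1 → q ∈ O) → O = Set.univ)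
    (M : Subfield ℂ) (σ₀ : K →+* ℂ) (S'' : Set (K →+* ℂ))
    (hS'' : ∀ τ : ℂ →+* ℂ, (∀ x ∈ M, τ x = x) → ∀ σ ∈ S'', τ.comp σ ∈ S'')
    {l k : ℕ} (hl : l.Prime) (hk : finrank ℂ (VS R (conjOver M σ₀)) = l ^ k)
    (hM : finrank ℂ (HS R σ₀) = 1 ∨
      ¬ l ∣ finrank σ₀.fieldRange (IntermediateField.adjoin σ₀.fieldRange (M : Set ℂ)))
    (O : Set (Set (End ℂ (ι → ℂ))))
    (hO : O ⊆ Om (endo t) (VS R (conjOver M σ₀)) (VS R S'') c) (hne : O.Nonempty)
    (hst : ∀ s, IsSym (endo t) (VS R (conjOver M σ₀)) (VS R S'') s → ∀ A ∈ O,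
      ∀ B ∈ Om (endo t) (VS R (conjOver M σ₀)) (VS R S'') c,
      s (Wt (endo t) (VS R (conjOver M σ₀)) (VS R S'') c A) =
        Wt (endo t) (VS R (conjOver M σ₀)) (VS R S'') c B → B ∈ O) :
    O = Om (endo t) (VS R (conjOver M σ₀)) (VS R S'') c := by
  classical
  set S' := conjOver M σ₀ with hS'
  set W' := VS R S' with hW'
  set W'' := VS R S'' with hW''
  have hW't : ∀ x ∈ endo t, ∀ w ∈ W', x w ∈ W' := by
    intro x hx w hw
    have h1 : W' ≤ W'.comap x := iSup₂_le fun σ hσ u hu =>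
      (le_iSup₂_of_le (f := fun (σ : K →+* ℂ) (_ : σ ∈ S') => HS R σ) σ hσ le_rfl) (hKt x hx σ u hu)
    exact h1 hw
  have hfinP : Finite (Pt (endo t) R c) := finite_Pt T
  set Ω' : Set (Pt (endo t) R c) := {p | p.1 ∈ S'} with hΩ'
  set O' : Set (Pt (endo t) R c) :=
    {p | p.1 ∈ S' ∧ (p.2 : Set (End ℂ (ι → ℂ))) ∩ EE (endo t) W'' c ∈ O} with hO'
  have hO'Ω : O' ⊆ Ω' := fun p hp => hp.1
  have hO'ne : O'.Nonempty := by
    obtain ⟨B, hB⟩ := hne
    obtain ⟨p, hp, hpB⟩ := exists_restr T hKt (hO hB)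
    exact ⟨p, hp, by rw [hpB]; exact hB⟩
  -- stability
  have hstab : ∀ s τ, TSym (endo t) R s τ → (∀ x ∈ M, τ x = x) → ∀ p ∈ O',
      ∀ q : Pt (endo t) R c, s (Wp p) = Wp q → q.1 = τ.comp p.1 → q ∈ O' := by
    intro s τ h hτ p hp q hpq hq
    have hsym : IsSym (endo t) W' W'' s :=
      h.isSym (h.VS_le fun σ hσ => comp_mem_conjOver hσ hτ) (h.VS_le fun σ hσ => hS'' τ hτ σ hσ)
    obtain ⟨φ, π, -, hπ, -⟩ := sym_act T hW't c hsym
    have hA := hO hp.2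
    have h1 := hπ ⟨_, hA⟩
    simp only at h1
    have hB := hst s hsym _ hp.2 _ (π ⟨_, hA⟩).2 h1
    have h4 : HS R p.1 ≤ W' :=
      le_iSup₂_of_le (f := fun (σ : K →+* ℂ) (_ : σ ∈ S') => HS R σ) p.1 hp.1 le_rfl
    have h2 : Wp q ≤ Wt (endo t) W' W'' c (π ⟨_, hA⟩ : Set (End ℂ (ι → ℂ))) := by
      rw [← hpq, ← h1]
      exact h.mono (restr (W'' := W'') p h4)
    refine ⟨?_, ?_⟩
    · rw [hq]
      exact comp_mem_conjOver hp.1 hτ
    · rw [restr_eq q (π ⟨_, hA⟩).2.1 h2]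
      exact hB
  suffices hmain : O' = Ω' by
    refine Set.Subset.antisymm hO fun B hB => ?_
    obtain ⟨p, hp, hpB⟩ := exists_restr T hKt hB
    have h1 : p ∈ O' := by
      rw [hmain]
      exact hp
    rw [← hpB]
    exact h1.2
  have hrankall : ∀ σ : K →+* ℂ, finrank ℂ (HS R σ) = finrank ℂ (HS R σ₀) := by
    intro σ
    have h1 := (HS_decomp R).2.2 σ
    have h2 := (HS_decomp R).2.2 σ₀
    exact Nat.eq_of_mul_eq_mul_right finrank_pos (h1.trans h2.symm)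
  rcases hM with hM | hM
  · -- lines
    have huniq : ∀ p q : Pt (endo t) R c, p.1 = q.1 → p = q := by
      intro p q hpq
      refine Wp_inj hpq ?_
      have h1 : ∀ p : Pt (endo t) R c, Wp p = HS R p.1 := by
        intro p
        have h2 : Wp p ≤ HS R p.1 := fun w hw => hw.1
        refine Submodule.eq_of_le_of_finrank_le h2 ?_
        rw [hrankall, hM]
        by_contra hcon
        exact Wp_ne_bot p (Submodule.finrank_eq_zero.mp (by omega))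
      rw [h1, h1, hpq]
    set OS : Set (K →+* ℂ) := {σ | ∃ p ∈ O', p.1 = σ} with hOS
    have hOSst : ∀ τ : ℂ →+* ℂ, (∀ x ∈ M, τ x = x) → ∀ σ ∈ OS, τ.comp σ ∈ OS := by
      rintro τ hτ _ ⟨p, hp, rfl⟩
      obtain ⟨π, _, hπ, hπ1⟩ := tsym_act (c := c) T hKt (tsym_cj R ht τ)
      exact ⟨π p, hstab _ _ (tsym_cj R ht τ) hτ p hp _ (hπ p) (hπ1 p), hπ1 p⟩
    have h0 : σ₀ ∈ OS := by
      obtain ⟨p, hp⟩ := hO'ne
      obtain ⟨τ, hτ, hτp⟩ := hp.1
      have hfin : Finite OS := inferInstance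
      let f : OS → OS := fun σ => ⟨τ.comp σ.1, hOSst τ hτ σ.1 σ.2⟩
      have hinj : Function.Injective f := fun a b h =>
        Subtype.ext (comp_inj τ (congrArg Subtype.val h))
      obtain ⟨σ, hσ⟩ := (Finite.injective_iff_surjective.mp hinj) ⟨p.1, p, hp, rfl⟩
      have h1 : τ.comp σ.1 = τ.comp σ₀ := (congrArg Subtype.val hσ).trans hτp.symm
      rw [← comp_inj τ h1]
      exact σ.2
    refine Set.Subset.antisymm hO'Ω fun q hq => ?_
    obtain ⟨τ, hτ, hτq⟩ := hq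
    obtain ⟨p, hp, hpq⟩ := hOSst τ hτ σ₀ h0
    rw [huniq q p (hτq.symm.trans hpq.symm)]
    exact hp
  · -- counting
    have hfin0 : finrank σ₀.fieldRange (IntermediateField.adjoin σ₀.fieldRange (M : Set ℂ)) ≠ 0 := by
      intro h
      rw [h] at hM
      exact hM (dvd_zero l)
    obtain ⟨hMn, hcard⟩ := card_fixing σ₀ M hfin0
    let MM : Set (((M →+* ℂ) → (M →+* ℂ)) × (Pt (endo t) R c → Pt (endo t) R c)) :=
      {m | ∃ s τ, TSym (endo t) R s τ ∧ (m.1 = fun x => τ.comp x) ∧ Function.Injective m.2 ∧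
        (∀ p, s (Wp p) = Wp (m.2 p)) ∧ ∀ p, (m.2 p).1 = τ.comp p.1}
    have hex : ∀ s τ, TSym (endo t) R s τ → ∃ m ∈ MM, (m.1 = fun x => τ.comp x) ∧
        (∀ p, s (Wp p) = Wp (m.2 p)) ∧ ∀ p, (m.2 p).1 = τ.comp p.1 := by
      intro s τ h
      obtain ⟨π, h1, h2, h3⟩ := tsym_act (c := c) T hKt h
      exact ⟨(fun x => τ.comp x, π), ⟨s, τ, h, rfl, h1, h2, h3⟩, rfl, h2, h3⟩
    have hcomp : ∀ m ∈ MM, ∀ m' ∈ MM, (m.1 ∘ m'.1, m.2 ∘ m'.2) ∈ MM := by
      rintro m ⟨s, τ, h, h1, h2, h3, h4⟩ m' ⟨s', τ', h', h1', h2', h3', h4'⟩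
      refine ⟨s ∘ s', τ.comp τ', h.comp h', ?_, h2.comp h2', fun p => ?_, fun p => ?_⟩
      · simp only [h1, h1']
        funext x
        exact (RingHom.comp_assoc _ _ _).symm
      · simp only [Function.comp_apply]
        rw [h3', h3]
      · simp only [Function.comp_apply]
        rw [h4, h4', RingHom.comp_assoc]
    have htrans : ∀ p q : Pt (endo t) R c, ∃ m ∈ MM, m.2 p = q := by
      intro p q
      have h1 := hptr {q | ∃ m ∈ MM, m.2 p = q}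
        ⟨_, ((hex _ _ (TSym.id (endo t) R)).choose), (hex _ _ (TSym.id (endo t) R)).choose_spec.1,
          rfl⟩ (by
          rintro s τ h _ ⟨m, hm, rfl⟩ q' h2 h3
          obtain ⟨m', hm', -, h4, h5⟩ := hex s τ h
          refine ⟨_, hcomp m' hm' m hm, ?_⟩
          exact Wp_inj ((h5 _).trans h3.symm) ((h4 _).symm.trans h2))
      have h2 : q ∈ {q | ∃ m ∈ MM, m.2 p = q} := by
        rw [h1]
        trivial
      exact h2
    -- a point over σ₀
    obtain ⟨ω₀, hω₀⟩ : ∃ p : Pt (endo t) R c, p.1 = σ₀ := by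
      by_contra hcon
      push Not at hcon
      have h1 := iSup_Wp (c := c) T hKt {σ₀} (R := R)
      have h2 : (⨆ (p : Pt (endo t) R c) (_ : p.1 ∈ ({σ₀} : Set (K →+* ℂ))), Wp p) = ⊥ := by
        refine le_bot_iff.mp (iSup₂_le fun p hp => ?_)
        exact absurd hp (hcon p)
      rw [h2] at h1
      have h3 : HS R σ₀ = ⊥ := by
        refine le_bot_iff.mp ?_
        rw [h1]
        exact le_iSup₂_of_le (f := fun (σ : K →+* ℂ) (_ : σ ∈ ({σ₀} : Set (K →+* ℂ))) => HS R σ)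
          σ₀ rfl le_rfl
      have h4 : W' = ⊥ := by
        refine le_bot_iff.mp (iSup₂_le fun σ _ => ?_)
        have h5 : finrank ℂ (HS R σ) = 0 := by rw [hrankall, h3, finrank_bot]
        rw [Submodule.finrank_eq_zero.mp h5]
      rw [h4, finrank_bot] at hk
      exact (pow_pos hl.pos k).ne hk
    -- the ranks are equal
    have hconst : ∀ p : Pt (endo t) R c, finrank ℂ (Wp p) = finrank ℂ (Wp ω₀) := by
      intro p
      obtain ⟨m, ⟨s, τ, h, -, -, h3, -⟩, h4⟩ := htrans ω₀ p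
      rw [← h4, ← h3, h.rank]
    have hcardΩ : ∃ i, Nat.card Ω' = l ^ i := by
      have : Fintype {p : Pt (endo t) R c // p.1 ∈ S'} := Fintype.ofFinite _
      have h1 := finrank_VS (c := c) T hKt S' (R := R)
      rw [Finset.sum_congr rfl fun p _ => hconst p.1, Finset.sum_const, Finset.card_univ,
        smul_eq_mul, ← Nat.card_eq_fintype_card] at h1
      have h2 : Nat.card Ω' ∣ l ^ k := ⟨_, by rw [← hk, h1]; rfl⟩
      obtain ⟨i, _, hi⟩ := (Nat.dvd_prime_pow hl).mp h2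
      exact ⟨i, hi⟩
    obtain ⟨i, hi⟩ := hcardΩ
    have hfix : ∀ m ∈ MM, m.1 M.subtype = M.subtype → ∀ s τ, TSym (endo t) R s τ →
        (m.1 = fun x => τ.comp x) → ∀ x ∈ M, τ x = x := by
      intro m _ h1 s τ _ h2 x hx
      rw [h2] at h1
      exact RingHom.congr_fun h1 ⟨x, hx⟩
    refine count MM ?_ ?_ hcomp ?_ htrans M.subtype ω₀ Ω' O' hO'Ω hO'ne ?_ ?_ hl hi ?_
    · rintro m ⟨s, τ, -, h1, h2, -, -⟩
      refine ⟨?_, h2⟩
      rw [h1]
      exact comp_inj τ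
    · refine ⟨id, RingHom.id ℂ, TSym.id _ _, ?_, Function.injective_id, fun p => rfl, fun p => ?_⟩
      · funext x
        exact (RingHom.id_comp x).symm
      · exact (RingHom.id_comp _).symm
    · intro x y
      obtain ⟨τ, hτ⟩ := exists_comp_eq x y
      obtain ⟨m, hm, h1, -⟩ := hex _ _ (tsym_cj R ht τ)
      exact ⟨m, hm, by rw [h1]; exact hτ⟩
    · rintro m ⟨s, τ, h, h1, h2, h3, h4⟩ hm0 p hp
      have hτ := hfix m ⟨s, τ, h, h1, h2, h3, h4⟩ hm0 s τ h h1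
      change (m.2 p).1 ∈ S'
      rw [h4]
      exact comp_mem_conjOver hp hτ
    · rintro m ⟨s, τ, h, h1, h2, h3, h4⟩ hm0 p hp
      have hτ := hfix m ⟨s, τ, h, h1, h2, h3, h4⟩ hm0 s τ h h1
      exact hstab s τ h hτ p hp _ (h3 p) (h4 p)
    · have hset : Nat.card {x : M →+* ℂ // ∃ m ∈ MM, ∃ ω ∈ Ω', m.1 M.subtype = x ∧ m.2 ω = ω₀} =
          Nat.card {x : M →+* ℂ // ∃ τ : ℂ →+* ℂ, τ.comp σ₀ = σ₀ ∧ τ.comp M.subtype = x} := by
        refine Nat.card_congr (Equiv.subtypeEquivRight fun x => ?_)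
        constructor
        · rintro ⟨m, ⟨s, τ, h, h1, h2, h3, h4⟩, ω, hω, rfl, h5⟩
          obtain ⟨τ₁, hτ₁, h6⟩ := hω
          refine ⟨τ.comp τ₁, ?_, ?_⟩
          · rw [RingHom.comp_assoc, h6, ← h4, h5, hω₀]
          · rw [h1]
            refine RingHom.ext fun y => ?_
            rw [RingHom.comp_apply, RingHom.comp_apply, RingHom.comp_apply]
            congr 1
            exact hτ₁ _ y.2
        · rintro ⟨τ, hτ, rfl⟩
          obtain ⟨m, hm, h1, h2, h3⟩ := hex _ _ (tsym_cj R ht τ)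
          obtain ⟨s', τ', -, -, h5, -, -⟩ := id hm
          obtain ⟨ω, hω⟩ := (Finite.injective_iff_surjective.mp h5) ω₀
          refine ⟨m, hm, ω, ?_, by rw [h1], hω⟩
          have h6 : τ.comp ω.1 = τ.comp σ₀ := by rw [← h3, hω, hω₀, hτ]
          change ω.1 ∈ S'
          rw [comp_inj τ h6]
          exact self_mem_conjOver M σ₀
      rw [hset, hcard]
      exact hM

end Pool.Agent.EllSig
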