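import Pool.Agent.EllSig.Defs
import Pool.Agent.CoprimeSig.OpenMap

/-!
# Conjugating elements near a generic element of a self-centralising diagonalisable subalgebra
-/

set_option autoImplicit false

namespace Pool.Agent.EllSig

open Module Pool.Agent.CoprimeSig Pool.Agent.OneFrob

private theorem near_deriv {A : Type*} [NormedRing A] [NormedAlgebra ℝ A] [CompleteSpace A]
    (g t₀ : Submodule ℝ A) {X : A} (hX : X ∈ t₀) :
    ∃ L : (g × t₀) →L[ℝ] A, HasStrictFDerivAt (fun p : g × t₀ =>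
      NormedSpace.exp (p.1 : A) * (p.2 : A) * NormedSpace.exp (-(p.1 : A))) L
        ((0 : g), (⟨X, hX⟩ : t₀)) ∧
      ∀ p : g × t₀, L p = (p.1 : A) * X - X * (p.1 : A) + (p.2 : A) := by
  have hfst : HasStrictFDerivAt (fun p : g × t₀ => (p.1 : A))
      (g.subtypeL.comp (ContinuousLinearMap.fst ℝ g t₀)) ((0 : g), (⟨X, hX⟩ : t₀)) :=
    (g.subtypeL.comp (ContinuousLinearMap.fst ℝ g t₀)).hasStrictFDerivAt
  have hsnd : HasStrictFDerivAt (fun p : g × t₀ => (p.2 : A))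
      (t₀.subtypeL.comp (ContinuousLinearMap.snd ℝ g t₀)) ((0 : g), (⟨X, hX⟩ : t₀)) :=
    (t₀.subtypeL.comp (ContinuousLinearMap.snd ℝ g t₀)).hasStrictFDerivAt
  have hexp : HasStrictFDerivAt (NormedSpace.exp : A → A) (1 : A →L[ℝ] A) 0 :=
    hasStrictFDerivAt_exp_zero
  have h1 : HasStrictFDerivAt (fun p : g × t₀ => NormedSpace.exp (p.1 : A))
      ((1 : A →L[ℝ] A).comp
        (g.subtypeL.comp (ContinuousLinearMap.fst ℝ g t₀))) ((0 : g), (⟨X, hX⟩ : t₀)) :=
    HasStrictFDerivAt.comp (g := (NormedSpace.exp : A → A)) _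
      (by simpa using hexp) hfst
  have h2 : HasStrictFDerivAt (fun p : g × t₀ => NormedSpace.exp (-(p.1 : A)))
      ((1 : A →L[ℝ] A).comp
        (-(g.subtypeL.comp (ContinuousLinearMap.fst ℝ g t₀)))) ((0 : g), (⟨X, hX⟩ : t₀)) :=
    HasStrictFDerivAt.comp (g := (NormedSpace.exp : A → A)) _
      (by simpa using hexp) hfst.neg
  refine ⟨_, (h1.mul' hsnd).mul' h2, fun p => ?_⟩
  simp
  abel

private theorem near_open {A : Type*} [NormedRing A] [NormedAlgebra ℝ A]
    [FiniteDimensional ℝ A] (g t₀ : Submodule ℝ A)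
    (hexp : ∀ z ∈ g, ∀ x ∈ g, NormedSpace.exp z * x * NormedSpace.exp (-z) ∈ g) (ht : t₀ ≤ g)
    {X : A} (hX : X ∈ t₀)
    (hsurj : ∀ x ∈ g, ∃ z ∈ g, ∃ h ∈ t₀, x = z * X - X * z + h) (S : Set A)
    (hS : S ∈ nhds X) :
    ∃ T ∈ nhds X, ∀ Y ∈ g, Y ∈ T → ∃ z ∈ g, ∃ h ∈ t₀,
      h ∈ S ∧ Y = NormedSpace.exp z * h * NormedSpace.exp (-z) := by
  have hc : CompleteSpace A := FiniteDimensional.complete ℝ A
  obtain ⟨L, hL, hLp⟩ := near_deriv g t₀ hX
  obtain ⟨P, hP⟩ := LinearMap.exists_leftInverse_of_injective g.subtype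
    (LinearMap.ker_eq_bot.mpr g.injective_subtype)
  have hP' : ∀ x : g, P (x : A) = x := fun x => LinearMap.congr_fun hP x
  let Pc : A →L[ℝ] g := LinearMap.toContinuousLinearMap P
  have hPc : ∀ x : g, Pc (x : A) = x := hP'
  let F : g × t₀ → g := fun p => Pc (NormedSpace.exp (p.1 : A) * (p.2 : A) *
    NormedSpace.exp (-(p.1 : A)))
  have hF : HasStrictFDerivAt F (Pc.comp L) ((0 : g), (⟨X, hX⟩ : t₀)) :=
    Pc.hasStrictFDerivAt.comp _ hL
  have hrange : (Pc.comp L).range = ⊤ := by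
    rw [eq_top_iff]
    intro x _
    obtain ⟨z, hz, h, hh, hx⟩ := hsurj x x.2
    refine ⟨(⟨z, hz⟩, ⟨h, hh⟩), ?_⟩
    have : L (⟨z, hz⟩, ⟨h, hh⟩) = (x : A) := by rw [hLp, hx]
    change Pc (L (⟨z, hz⟩, ⟨h, hh⟩)) = x
    rw [this, hPc]
  have hmap := hF.map_nhds_eq_of_surj hrange
  have hF0 : F ((0 : g), (⟨X, hX⟩ : t₀)) = ⟨X, ht hX⟩ := by
    change Pc _ = _
    rw [← hPc ⟨X, ht hX⟩]
    simp
  rw [hF0] at hmap
  have hN : {p : g × t₀ | (p.2 : A) ∈ S} ∈ nhds ((0 : g), (⟨X, hX⟩ : t₀)) := by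
    have hcont : Continuous fun p : g × t₀ => (p.2 : A) := by fun_prop
    exact hcont.continuousAt.preimage_mem_nhds hS
  have h3 : F '' {p : g × t₀ | (p.2 : A) ∈ S} ∈ nhds (⟨X, ht hX⟩ : g) := by
    rw [← hmap]
    exact Filter.image_mem_map hN
  rw [nhds_subtype] at h3
  obtain ⟨T, hT, hTs⟩ := h3
  refine ⟨T, hT, fun Y hY hYT => ?_⟩
  have h4 : (⟨Y, hY⟩ : g) ∈ F '' {p : g × t₀ | (p.2 : A) ∈ S} := hTs hYT
  obtain ⟨⟨z, h⟩, hS', hzh⟩ := h4
  refine ⟨z, z.2, h, h.2, hS', ?_⟩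
  have h5 := hPc ⟨_, hexp z z.2 h (ht h.2)⟩
  have h6 : F (z, h) = ⟨_, hexp z z.2 h (ht h.2)⟩ := h5
  rw [h6] at hzh
  exact (congrArg Subtype.val hzh).symm

variable {ι : Type} [Fintype ι] [DecidableEq ι] {g t : Submodule ℂ (Matrix ι ι ℂ)}
  {F : Matrix ι ι ℂ}

private theorem near_comm_zero (v : Basis ι ℂ (ι → ℂ)) {X z : Matrix ι ι ℂ}
    (hX : ∀ i, ∃ c : ℂ, Matrix.toLin' X (v i) = c • v i)
    (h : (z * X - X * z) * X = X * (z * X - X * z)) : z * X - X * z = 0 := by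
  choose d hd using hX
  have hrepr : ∀ (w : ι → ℂ) (j : ι), v.repr (Matrix.toLin' X w) j = d j * v.repr w j := by
    intro w j
    have h1 : Matrix.toLin' X w = ∑ i, (v.repr w i * d i) • v i := by
      conv_lhs => rw [← v.sum_repr w, map_sum]
      refine Finset.sum_congr rfl fun i _ => ?_
      rw [map_smul, hd, smul_smul]
    rw [h1, v.repr_sum_self]
    ring
  have h0 : Matrix.toLin' (z * X - X * z) = 0 := by
    refine v.ext fun i => ?_
    rw [LinearMap.zero_apply]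
    apply v.repr.injective
    ext j
    rw [map_zero, Finsupp.zero_apply]
    have h1 : Matrix.toLin' (z * X - X * z) (v i) =
        d i • Matrix.toLin' z (v i) - Matrix.toLin' X (Matrix.toLin' z (v i)) := by
      rw [map_sub, Matrix.toLin'_mul, Matrix.toLin'_mul, LinearMap.sub_apply,
        LinearMap.comp_apply, LinearMap.comp_apply, hd, map_smul]
    have h2 : v.repr (Matrix.toLin' (z * X - X * z) (v i)) j =
        (d i - d j) * v.repr (Matrix.toLin' z (v i)) j := by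
      rw [h1, map_sub, map_smul, Finsupp.sub_apply, hrepr, Finsupp.smul_apply, smul_eq_mul]
      ring
    have h3 : Matrix.toLin' (z * X - X * z) (Matrix.toLin' X (v i)) =
        Matrix.toLin' X (Matrix.toLin' (z * X - X * z) (v i)) := by
      have h4 := congrArg (fun M => Matrix.toLin' M (v i)) h
      simp only [Matrix.toLin'_mul, LinearMap.comp_apply] at h4
      exact h4
    have h5 : v.repr (Matrix.toLin' (z * X - X * z) (Matrix.toLin' X (v i))) j =
        v.repr (Matrix.toLin' X (Matrix.toLin' (z * X - X * z) (v i))) j := by rw [h3]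
    rw [hd, map_smul, map_smul, Finsupp.smul_apply, hrepr, smul_eq_mul] at h5
    have h6 : (d i - d j) * v.repr (Matrix.toLin' (z * X - X * z) (v i)) j = 0 := by
      linear_combination h5
    rcases mul_eq_zero.1 h6 with h7 | h7
    · rw [h2, h7, zero_mul]
    · exact h7
  exact (Matrix.toLin' (R := ℂ)).injective (by rw [h0, map_zero])

/-- The diagonal coefficient of a matrix at the `i`-th vector of the basis `v`. -/
private noncomputable def nearD (v : Basis ι ℂ (ι → ℂ)) (i : ι) : Matrix ι ι ℂ →ₗ[ℂ] ℂ where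
  toFun x := v.repr (Matrix.toLin' x (v i)) i
  map_add' x y := by
    rw [map_add]
    simp
  map_smul' c x := by
    rw [map_smul, LinearMap.smul_apply, map_smul, Finsupp.smul_apply, RingHom.id_apply]

private theorem nearD_spec (v : Basis ι ℂ (ι → ℂ)) {x : Matrix ι ι ℂ} {i : ι}
    (h : ∃ c : ℂ, Matrix.toLin' x (v i) = c • v i) :
    Matrix.toLin' x (v i) = nearD v i x • v i := by
  obtain ⟨c, hc⟩ := h
  have : nearD v i x = c := by
    change v.repr (Matrix.toLin' x (v i)) i = c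
    rw [hc]; simp
  rw [this, hc]

/-- A generic element: a matrix commuting with it commutes with all of `t`. -/
private theorem near_generic (v : Basis ι ℂ (ι → ℂ))
    (hv : ∀ x ∈ t, ∀ i, ∃ c : ℂ, Matrix.toLin' x (v i) = c • v i) :
    ∃ X ∈ t, ∀ M : Matrix ι ι ℂ, M * X = X * M → ∀ y ∈ t, M * y = y * M := by
  classical
  let P : Finset (ι × ι) := Finset.univ.filter
    (fun p => ∃ y ∈ t, nearD v p.1 y ≠ nearD v p.2 y)
  obtain ⟨X, hX⟩ : ∃ X : t, ∀ p ∈ P, nearD v p.1 (X : Matrix ι ι ℂ) ≠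
      nearD v p.2 (X : Matrix ι ι ℂ) := by
    let K : ι × ι → Submodule ℂ t := fun p =>
      LinearMap.ker (((nearD v p.1 - nearD v p.2) : Matrix ι ι ℂ →ₗ[ℂ] ℂ).comp t.subtype)
    have hK : (⊤ : Submodule ℂ t) ∉ P.image K := by
      intro hmem
      obtain ⟨p, hp, hpK⟩ := Finset.mem_image.1 hmem
      obtain ⟨y, hy, hne⟩ := (Finset.mem_filter.1 hp).2
      have : (⟨y, hy⟩ : t) ∈ K p := by rw [hpK]; trivial
      have h2 := LinearMap.mem_ker.1 this
      exact hne (sub_eq_zero.1 h2)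
    have hU := Subspace.biUnion_ne_univ_of_top_notMem hK
    obtain ⟨X, hX⟩ := (Set.ne_univ_iff_exists_notMem _).1 hU
    refine ⟨X, fun p hp heq => hX ?_⟩
    simp only [Set.mem_iUnion]
    exact ⟨K p, Finset.mem_image_of_mem K hp, LinearMap.mem_ker.2 (sub_eq_zero.2 heq)⟩
  refine ⟨X, X.2, fun M hM y hy => ?_⟩
  apply Matrix.toLin'.injective
  refine v.ext fun j => ?_
  rw [Matrix.toLin'_mul, Matrix.toLin'_mul, LinearMap.comp_apply, LinearMap.comp_apply,
    nearD_spec v (hv y hy j), map_smul]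
  set w := Matrix.toLin' M (v j) with hw
  have hMw : Matrix.toLin' (X : Matrix ι ι ℂ) w = nearD v j (X : Matrix ι ι ℂ) • w := by
    have h1 := congrArg (fun N => Matrix.toLin' N (v j)) hM
    simp only [Matrix.toLin'_mul, LinearMap.comp_apply] at h1
    rw [nearD_spec v (hv X X.2 j), map_smul] at h1
    exact h1.symm
  have hrepr : ∀ (x : Matrix ι ι ℂ), x ∈ t → ∀ i,
      v.repr (Matrix.toLin' x w) i = nearD v i x * v.repr w i := by
    intro x hx i
    conv_lhs => rw [← v.sum_repr w]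
    rw [map_sum, map_sum, Finset.sum_apply']
    rw [Finset.sum_eq_single i]
    · rw [map_smul, nearD_spec v (hv x hx i)]
      simp [mul_comm]
    · intro b _ hb
      rw [map_smul, nearD_spec v (hv x hx b)]
      simp [hb]
    · intro hi; exact absurd (Finset.mem_univ i) hi
  apply v.repr.injective
  ext i
  rw [hrepr y hy i, map_smul, Finsupp.smul_apply, smul_eq_mul]
  by_cases hc : v.repr w i = 0
  · rw [hc, mul_zero, mul_zero]
  · have h2 := congrArg (fun u => v.repr u i) hMw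
    simp only [map_smul, Finsupp.smul_apply, smul_eq_mul] at h2
    rw [hrepr X X.2 i] at h2
    have h3 : nearD v i (X : Matrix ι ι ℂ) = nearD v j (X : Matrix ι ι ℂ) :=
      mul_right_cancel₀ hc h2
    have h4 : (i, j) ∉ P := fun hp => hX _ hp h3
    have h5 : nearD v i y = nearD v j y := by
      by_contra hne
      exact h4 (Finset.mem_filter.2 ⟨Finset.mem_univ _, y, hy, hne⟩)
    rw [h5]

private theorem near_surj (hlie' : ∀ x ∈ g, ∀ y ∈ g, x * y - y * x ∈ g)
    (v : Basis ι ℂ (ι → ℂ)) {X : Matrix ι ι ℂ} (hXg : X ∈ g)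
    (hX : ∀ i, ∃ c : ℂ, Matrix.toLin' X (v i) = c • v i)
    (hcent : ∀ x ∈ g, x * X = X * x → x ∈ t) :
    ∀ x ∈ g, ∃ z ∈ g, ∃ h ∈ t, x = z * X - X * z + h := by
  let A : g →ₗ[ℂ] g :=
    { toFun := fun z => ⟨(z : Matrix ι ι ℂ) * X - X * z, hlie' z z.2 X hXg⟩
      map_add' := fun x y => by
        apply Subtype.ext
        change ((x : Matrix ι ι ℂ) + y) * X - X * (x + y) =
          ((x : Matrix ι ι ℂ) * X - X * x) + ((y : Matrix ι ι ℂ) * X - X * y)
        rw [add_mul, mul_add]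
        abel
      map_smul' := fun r x => by
        apply Subtype.ext
        change (r • (x : Matrix ι ι ℂ)) * X - X * (r • (x : Matrix ι ι ℂ)) =
          r • ((x : Matrix ι ι ℂ) * X - X * x)
        rw [smul_mul_assoc, mul_smul_comm, smul_sub] }
  have hA : ∀ z : g, ((A z : g) : Matrix ι ι ℂ) = z * X - X * z := fun z => rfl
  have hdis : Disjoint (LinearMap.range A) (LinearMap.ker A) := by
    rw [Submodule.disjoint_def]
    rintro _ ⟨z, rfl⟩ hz
    rw [LinearMap.mem_ker] at hz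
    have h1 : (((z : Matrix ι ι ℂ) * X - X * z) * X - X * (z * X - X * z)) = 0 := by
      have h2 := congrArg (fun w : g => (w : Matrix ι ι ℂ)) hz
      exact h2
    have h3 := near_comm_zero v hX (sub_eq_zero.1 h1)
    apply Subtype.ext
    rw [hA, h3]
    rfl
  have htop : LinearMap.range A ⊔ LinearMap.ker A = ⊤ := by
    refine Submodule.eq_top_of_disjoint _ _ ?_ hdis
    rw [LinearMap.finrank_range_add_finrank_ker]
  intro x hx
  have h1 : (⟨x, hx⟩ : g) ∈ LinearMap.range A ⊔ LinearMap.ker A := by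
    rw [htop]
    exact Submodule.mem_top
  obtain ⟨_, ⟨z, rfl⟩, h, hh, hsum⟩ := Submodule.mem_sup.1 h1
  refine ⟨z, z.2, h, hcent h h.2 ?_, ?_⟩
  · have h2 := congrArg (fun w : g => (w : Matrix ι ι ℂ)) (LinearMap.mem_ker.1 hh)
    exact sub_eq_zero.1 h2
  · have h2 := congrArg (fun w : g => (w : Matrix ι ι ℂ)) hsum
    exact h2.symm

/-- T1 (file Near.lean): near a generic element of a self-centralising diagonalisable subalgebra
`t`, all elements of `g` are conjugate to elements of `t`. -/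
theorem exists_near_c (hlie : ∀ x ∈ g, ∀ y ∈ g, x * y - y * x ∈ g) (ht : t ≤ g)
    (htc : ∀ x ∈ t, ∀ y ∈ t, x * y = y * x) (hcent : ∀ x ∈ g, (∀ y ∈ t, x * y = y * x) → x ∈ t)
    (v : Basis ι ℂ (ι → ℂ)) (hv : ∀ x ∈ t, ∀ i, ∃ c : ℂ, Matrix.toLin' x (v i) = c • v i) :
    ∃ X ∈ t, ∃ δ > (0 : ℝ), ∀ Y ∈ g, (∀ i j, ‖Y i j - X i j‖ < δ) → ∃ z ∈ g, ∃ h ∈ t,
      Y = NormedSpace.exp z * h * NormedSpace.exp (-z) := by
  obtain ⟨X, hX, hgen⟩ := near_generic v hv
  have hs := near_surj (t := t) hlie v (ht hX) (hv X hX)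
    (fun x hx hxX => hcent x hx (hgen x hxX))
  have key : ∃ T ∈ nhds X, ∀ Y ∈ g, Y ∈ T → ∃ z ∈ g, ∃ h ∈ t,
      Y = NormedSpace.exp z * h * NormedSpace.exp (-z) := by
    open scoped Matrix.Norms.Operator in
    obtain ⟨T, hT, hY⟩ := near_open (A := Matrix ι ι ℂ) (g.restrictScalars ℝ)
      (t.restrictScalars ℝ) (fun z hz x hx => exp_conj_mem g hlie hz hx) ht hX
      (fun x hx => hs x hx) Set.univ Filter.univ_mem
    exact ⟨T, hT, fun Y hYg hYT => by
      obtain ⟨z, hz, h, hh, _, he⟩ := hY Y hYg hYT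
      exact ⟨z, hz, h, hh, he⟩⟩
  obtain ⟨T, hT, hY⟩ := key
  have h2 : ∃ δ > 0, ∀ Y : Matrix ι ι ℂ, (∀ i j, ‖Y i j - X i j‖ < δ) → Y ∈ T := by
    open scoped Matrix.Norms.Elementwise in
    obtain ⟨δ, hδ, hb⟩ := Metric.mem_nhds_iff.mp hT
    refine ⟨δ, hδ, fun Y hYδ => hb ?_⟩
    rw [Metric.mem_ball, dist_eq_norm, Matrix.norm_lt_iff hδ]
    exact hYδ
  obtain ⟨δ, hδ, h3⟩ := h2
  exact ⟨X, hX, δ, hδ, fun Y hYg hYδ => hY Y hYg (h3 Y hYδ)⟩

end Pool.Agent.EllSig
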