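import Pool.Agent.EllSig.Defs
import Pool.Agent.EllSig.Near
import Mathlib.RingTheory.Nullstellensatz
import Mathlib.RingTheory.Ideal.GoingUp
import Mathlib.Analysis.Normed.Algebra.MatrixExponential

/-!
# An idempotent of `g` has a counterpart in the Cartan subalgebra `t`
-/

set_option autoImplicit false
namespace Pool.Agent.EllSig
open Module Pool.Agent.CoprimeSig

variable {ι : Type} [Fintype ι] [DecidableEq ι] {g t : Submodule ℂ (Matrix ι ι ℂ)}

/-- The invariants of a matrix: traces against `Z` and coefficients of the characteristic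
polynomial. -/
private noncomputable def specInv {R : Type} [CommRing R] [Algebra ℂ R] (x : Matrix ι ι R) :
    (Matrix ι ι ℂ) ⊕ ℕ → R :=
  Sum.elim (fun Z => (x * Z.map (algebraMap ℂ R)).trace) (fun n => x.charpoly.coeff n)

private theorem specInv_map {R S : Type} [CommRing R] [Algebra ℂ R] [CommRing S] [Algebra ℂ S]
    (φ : R →ₐ[ℂ] S) (x : Matrix ι ι R) (j : (Matrix ι ι ℂ) ⊕ ℕ) :
    specInv (x.map φ) j = φ (specInv x j) := by
  rcases j with Z | n
  · simp only [specInv, Sum.elim_inl]
    have h : x.map φ * Z.map (algebraMap ℂ S) = (x * Z.map (algebraMap ℂ R)).map φ := by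
      ext i j
      simp only [Matrix.mul_apply, Matrix.map_apply, map_sum, map_mul]
      refine Finset.sum_congr rfl fun k _ => ?_
      rw [AlgHom.commutes]
    rw [h]
    simp only [Matrix.trace, Matrix.diag_apply, Matrix.map_apply, map_sum]
  · simp only [specInv, Sum.elim_inr]
    have h : (x.map φ).charpoly = x.charpoly.map (φ : R →+* S) := by
      rw [← Matrix.charpoly_map]
      rfl
    rw [h, Polynomial.coeff_map]
    rfl

private theorem spec_aeval_map {R S : Type} [CommRing R] [Algebra ℂ R] [CommRing S]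
    [Algebra ℂ S] (φ : R →ₐ[ℂ] S) (x : Matrix ι ι R) (J : Set (Matrix ι ι ℂ))
    (G : MvPolynomial (J ⊕ ℕ) ℂ) :
    MvPolynomial.aeval (fun j => specInv (x.map φ) (Sum.map Subtype.val id j)) G =
      φ (MvPolynomial.aeval (fun j => specInv x (Sum.map Subtype.val id j)) G) := by
  have h : (fun j : J ⊕ ℕ => specInv (x.map φ) (Sum.map Subtype.val id j)) =
      fun j => φ (specInv x (Sum.map Subtype.val id j)) := by
    funext j
    exact specInv_map φ x _
  rw [h, ← MvPolynomial.comp_aeval_apply]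

/-- The invariants are constant on conjugacy classes. -/
private theorem specInv_conj (z h : Matrix ι ι ℂ) (J : Set (Matrix ι ι ℂ))
    (hJ : ∀ Z ∈ J, z * Z = Z * z) (j : J ⊕ ℕ) :
    specInv (R := ℂ) (NormedSpace.exp z * h * NormedSpace.exp (-z)) (Sum.map Subtype.val id j) =
      specInv (R := ℂ) h (Sum.map Subtype.val id j) := by
  have hu : IsUnit (NormedSpace.exp z) := Matrix.isUnit_exp z
  rcases j with Z | n
  · simp only [specInv, Sum.map_inl, Sum.elim_inl]
    have hZ : (Z : Matrix ι ι ℂ).map (algebraMap ℂ ℂ) = Z := by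
      ext i j; rfl
    rw [hZ, Matrix.exp_neg]
    have hc : Commute (NormedSpace.exp z) (Z : Matrix ι ι ℂ) := by
      have h1 : Commute z (Z : Matrix ι ι ℂ) := hJ _ Z.2
      exact h1.exp_left
    rw [Matrix.mul_assoc, Matrix.mul_assoc, Matrix.trace_mul_comm]
    have h2 : (NormedSpace.exp z)⁻¹ * (Z : Matrix ι ι ℂ) = Z * (NormedSpace.exp z)⁻¹ := by
      have hd := (Matrix.isUnit_iff_isUnit_det _).1 hu
      calc (NormedSpace.exp z)⁻¹ * (Z : Matrix ι ι ℂ)
          = (NormedSpace.exp z)⁻¹ * (Z * (NormedSpace.exp z * (NormedSpace.exp z)⁻¹)) := by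
            rw [Matrix.mul_nonsing_inv _ hd, Matrix.mul_one]
        _ = (NormedSpace.exp z)⁻¹ * (NormedSpace.exp z * Z) * (NormedSpace.exp z)⁻¹ := by
            rw [hc.eq]; simp only [Matrix.mul_assoc]
        _ = Z * (NormedSpace.exp z)⁻¹ := by
            rw [← Matrix.mul_assoc (NormedSpace.exp z)⁻¹, Matrix.nonsing_inv_mul _ hd,
              Matrix.one_mul]
    have hd := (Matrix.isUnit_iff_isUnit_det _).1 hu
    rw [h2, Matrix.mul_assoc, Matrix.mul_assoc, Matrix.nonsing_inv_mul _ hd, Matrix.mul_one]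
  · simp only [specInv, Sum.map_inr, Sum.elim_inr, id]
    rw [Matrix.exp_neg]
    obtain ⟨U, hU⟩ := hu
    rw [← hU, Matrix.charpoly_units_conj]


/-- Everything about the polynomial function on the line. -/
private theorem spec_line (X e : Matrix ι ι ℂ) (J : Set (Matrix ι ι ℂ))
    (G : MvPolynomial (J ⊕ ℕ) ℂ) (r : ℝ) (hr : 0 < r)
    (h0 : ∀ s : ℝ, 0 < s → s < r →
      MvPolynomial.aeval (fun j => specInv (R := ℂ) (X + (s : ℂ) • (e - X))
        (Sum.map Subtype.val id j)) G = 0) :
    MvPolynomial.aeval (fun j => specInv (R := ℂ) e (Sum.map Subtype.val id j)) G = 0 := by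
  classical
  let M : Matrix ι ι (Polynomial ℂ) :=
    X.map Polynomial.C + (Polynomial.X : Polynomial ℂ) • (e - X).map Polynomial.C
  let q : Polynomial ℂ :=
    MvPolynomial.aeval (fun j => specInv M (Sum.map Subtype.val id j)) G
  have hq : ∀ s : ℂ, q.eval s = MvPolynomial.aeval (fun j => specInv (R := ℂ)
      (X + s • (e - X)) (Sum.map Subtype.val id j)) G := by
    intro s
    have h1 := spec_aeval_map (Polynomial.aeval s : Polynomial ℂ →ₐ[ℂ] ℂ) M J G
    have h2 : M.map (Polynomial.aeval s : Polynomial ℂ →ₐ[ℂ] ℂ) = X + s • (e - X) := by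
      ext i j
      simp [M]
    rw [h2] at h1
    rw [h1]
    simp [q, Polynomial.coe_aeval_eq_eval]
  have hz : q = 0 := by
    apply Polynomial.eq_zero_of_infinite_isRoot
    apply Set.Infinite.mono (s := (fun s : ℝ => (s : ℂ)) '' Set.Ioo 0 r)
    · rintro _ ⟨s, hs, rfl⟩
      change q.IsRoot _
      rw [Polynomial.IsRoot.def, hq]
      exact h0 s hs.1 hs.2
    · exact (Set.Ioo_infinite hr).image (Complex.ofReal_injective.injOn)
  have h1 := hq 1
  rw [hz] at h1
  simpa using h1.symm


/-- Integrality of the polynomial ring over the ring of invariants. -/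
private theorem spec_integral {d : ℕ} (H : Matrix ι ι (MvPolynomial (Fin d) ℂ))
    (bb : Fin d → Matrix ι ι ℂ)
    (hH : H = ∑ j, (MvPolynomial.X j : MvPolynomial (Fin d) ℂ) •
      (bb j).map (algebraMap ℂ (MvPolynomial (Fin d) ℂ)))
    (v : Basis ι ℂ (ι → ℂ)) (μ : Fin d → ι → ℂ)
    (hμ : ∀ j i, (bb j).mulVec (v i) = μ j i • v i)
    (a : Fin d → ι → ℂ) (ha : ∀ j k, ∑ i, a j i * μ k i = if k = j then 1 else 0)
    (J : Set (Matrix ι ι ℂ)) (α : MvPolynomial (J ⊕ ℕ) ℂ →ₐ[ℂ] MvPolynomial (Fin d) ℂ)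
    (hα : α = MvPolynomial.aeval (fun j => specInv H (Sum.map Subtype.val id j))) :
    letI := α.toRingHom.toAlgebra
    Algebra.IsIntegral (MvPolynomial (J ⊕ ℕ) ℂ) (MvPolynomial (Fin d) ℂ) := by
  classical
  let _ := α.toRingHom.toAlgebra
  let P := MvPolynomial (Fin d) ℂ
  let L : ι → P := fun i => ∑ j, MvPolynomial.X j * MvPolynomial.C (μ j i)
  have hroot : ∀ i, H.charpoly.eval (L i) = 0 := by
    intro i
    rw [Matrix.eval_charpoly, ← Matrix.exists_mulVec_eq_zero_iff]
    refine ⟨fun k => MvPolynomial.C (v i k), ?_, ?_⟩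
    · intro h0
      apply v.ne_zero i
      funext k
      have := congrFun h0 k
      simpa using this
    · funext k
      have h1 : ∀ j, ∑ l, bb j k l * v i l = μ j i * v i k := by
        intro j
        have := congrFun (hμ j i) k
        simpa [Matrix.mulVec, dotProduct] using this
      have h2 : (Matrix.scalar ι (L i)).mulVec (fun k => MvPolynomial.C (v i k)) k =
          L i * MvPolynomial.C (v i k) := by
        rw [Matrix.scalar_apply, Matrix.mulVec_diagonal]
      have h3 : H.mulVec (fun k => MvPolynomial.C (v i k)) k = L i * MvPolynomial.C (v i k) := by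
        rw [hH]
        simp only [Matrix.mulVec, dotProduct,
          Matrix.sum_apply, Matrix.smul_apply, Matrix.map_apply, smul_eq_mul,
          MvPolynomial.algebraMap_eq, Finset.sum_mul, L]
        rw [Finset.sum_comm, Finset.sum_mul]
        refine Finset.sum_congr rfl fun j _ => ?_
        simp only [mul_assoc]
        rw [← Finset.mul_sum]
        congr 1
        rw [← MvPolynomial.C_mul, ← h1 j, map_sum]
        exact Finset.sum_congr rfl fun l _ => (MvPolynomial.C_mul).symm
      rw [Matrix.sub_mulVec, Pi.sub_apply, h2, h3, sub_self]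
      rfl
  have hLint : ∀ i, IsIntegral (MvPolynomial (J ⊕ ℕ) ℂ) (L i) := by
    intro i
    have hl : H.charpoly ∈ Polynomial.lifts (algebraMap (MvPolynomial (J ⊕ ℕ) ℂ) P) := by
      rw [Polynomial.lifts_iff_coeff_lifts]
      intro n
      refine ⟨MvPolynomial.X (Sum.inr n), ?_⟩
      change α (MvPolynomial.X (Sum.inr n)) = _
      rw [hα, MvPolynomial.aeval_X]
      rfl
    obtain ⟨q, hq1, -, hq2⟩ := Polynomial.lifts_and_natDegree_eq_and_monic hl H.charpoly_monic
    refine ⟨q, hq2, ?_⟩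
    rw [← Polynomial.eval_map, hq1]
    exact hroot i
  have hC : ∀ c : ℂ, IsIntegral (MvPolynomial (J ⊕ ℕ) ℂ) (MvPolynomial.C c : P) := by
    intro c
    have : (MvPolynomial.C c : P) = algebraMap (MvPolynomial (J ⊕ ℕ) ℂ) P (MvPolynomial.C c) := by
      change _ = α (MvPolynomial.C c)
      rw [← MvPolynomial.algebraMap_eq, ← MvPolynomial.algebraMap_eq, AlgHom.commutes]
    rw [this]
    exact isIntegral_algebraMap
  have hXint : ∀ j, IsIntegral (MvPolynomial (J ⊕ ℕ) ℂ) (MvPolynomial.X j : P) := by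
    intro j
    have : (MvPolynomial.X j : P) = ∑ i, MvPolynomial.C (a j i) * L i := by
      simp only [L, Finset.mul_sum]
      rw [Finset.sum_comm]
      have : ∀ k, ∑ i, (MvPolynomial.C (a j i) : P) *
          (MvPolynomial.X k * MvPolynomial.C (μ k i)) =
          if k = j then MvPolynomial.X k else 0 := by
        intro k
        have h2 : ∀ i, (MvPolynomial.C (a j i) : P) *
          (MvPolynomial.X k * MvPolynomial.C (μ k i)) =
            MvPolynomial.X k * MvPolynomial.C (a j i * μ k i) := by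
          intro i
          rw [MvPolynomial.C_mul]; ring
        simp only [h2]
        rw [← Finset.mul_sum, ← map_sum, ha]
        split_ifs <;> simp
      rw [Finset.sum_congr rfl fun k _ => this k]
      simp
    rw [this]
    exact IsIntegral.sum _ fun i _ => (hC _).mul (hLint i)
  constructor
  intro p
  induction p using MvPolynomial.induction_on with
  | C c => exact hC c
  | add p q hp hq => exact hp.add hq
  | mul_X p j hp => exact hp.mul (hXint j)


/-- T2 (file Spec.lean): an idempotent of `g` has a counterpart in `t`. -/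
theorem exists_spec (hlie : ∀ x ∈ g, ∀ y ∈ g, x * y - y * x ∈ g) (ht : t ≤ g)
    (htc : ∀ x ∈ t, ∀ y ∈ t, x * y = y * x) (hcent : ∀ x ∈ g, (∀ y ∈ t, x * y = y * x) → x ∈ t)
    (v : Basis ι ℂ (ι → ℂ)) (hv : ∀ x ∈ t, ∀ i, ∃ c : ℂ, Matrix.toLin' x (v i) = c • v i)
    {e : Matrix ι ι ℂ} (he : e ∈ g) (hee : e * e = e) :
    ∃ e' ∈ t, e' * e' = e' ∧ ∀ Z : Matrix ι ι ℂ, (∀ x ∈ g, x * Z = Z * x) →
      (e' * Z).trace = (e * Z).trace := by
  classical
  obtain ⟨X, hX, δ, hδ, hnear⟩ := exists_near_c hlie ht htc hcent v hv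
  let J : Set (Matrix ι ι ℂ) := {Z | ∀ x ∈ g, x * Z = Z * x}
  obtain ⟨d, ⟨b⟩⟩ : ∃ d : ℕ, Nonempty (Basis (Fin d) ℂ t) :=
    ⟨finrank ℂ t, ⟨Module.finBasis ℂ t⟩⟩
  let P := MvPolynomial (Fin d) ℂ
  let bb : Fin d → Matrix ι ι ℂ := fun j => (b j : Matrix ι ι ℂ)
  let H : Matrix ι ι P := ∑ j, (MvPolynomial.X j : P) • (bb j).map (algebraMap ℂ P)
  have hH : ∀ c : Fin d → ℂ, H.map (MvPolynomial.aeval c : P →ₐ[ℂ] ℂ) = ∑ j, c j • bb j := by
    intro c
    ext i k
    simp only [H, Matrix.map_apply, Matrix.sum_apply, Matrix.smul_apply, smul_eq_mul, map_sum,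
      map_mul, MvPolynomial.aeval_X]
    refine Finset.sum_congr rfl fun x _ => ?_
    congr 1
    exact (MvPolynomial.aeval c : P →ₐ[ℂ] ℂ).commutes (bb x i k)
  have hbt : ∀ c : Fin d → ℂ, ∑ j, c j • bb j ∈ t := fun c =>
    t.sum_mem fun j _ => t.smul_mem _ (b j).2
  let α : MvPolynomial (J ⊕ ℕ) ℂ →ₐ[ℂ] P :=
    MvPolynomial.aeval (fun j => specInv H (Sum.map Subtype.val id j))
  let β : MvPolynomial (J ⊕ ℕ) ℂ →ₐ[ℂ] ℂ :=
    MvPolynomial.aeval (fun j => specInv (R := ℂ) e (Sum.map Subtype.val id j))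
  -- (a)
  have hker : ∀ G, α G = 0 → β G = 0 := by
    intro G hG
    have ht0 : ∀ x ∈ t, MvPolynomial.aeval
        (fun j => specInv (R := ℂ) x (Sum.map Subtype.val id j)) G = (0 : ℂ) := by
      intro x hx
      have h1 := spec_aeval_map (MvPolynomial.aeval (fun j => b.repr ⟨x, hx⟩ j) : P →ₐ[ℂ] ℂ)
        H J G
      have h2 : ∑ j, (b.repr ⟨x, hx⟩ j) • bb j = x := by
        have h4 : ((∑ j, b.repr ⟨x, hx⟩ j • b j : t) : Matrix ι ι ℂ) = x := by
          rw [b.sum_repr]
        rw [Submodule.coe_sum] at h4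
        exact h4
      rw [hH, h2] at h1
      rw [h1]
      change (MvPolynomial.aeval _) (α G) = 0
      rw [hG, map_zero]
    have hg0 : ∀ Y ∈ g, (∀ i j, ‖Y i j - X i j‖ < δ) → MvPolynomial.aeval
        (fun j => specInv (R := ℂ) Y (Sum.map Subtype.val id j)) G = (0 : ℂ) := by
      intro Y hY hYX
      obtain ⟨z, hz, h, hh, rfl⟩ := hnear Y hY hYX
      have h1 := ht0 h hh
      have h2 : (fun j : J ⊕ ℕ => specInv (R := ℂ)
          (NormedSpace.exp z * h * NormedSpace.exp (-z)) (Sum.map Subtype.val id j)) =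
          fun j => specInv (R := ℂ) h (Sum.map Subtype.val id j) := by
        funext j
        exact specInv_conj z h J (fun Z hZ => hZ z hz) j
      rw [h2]
      exact h1
    let B : ℝ := 1 + ∑ i, ∑ j, ‖(e - X) i j‖
    have hB : 0 < B := by positivity
    refine spec_line X e J G (δ / B) (by positivity) fun s hs0 hs1 => ?_
    refine hg0 _ (g.add_mem (ht hX) (g.smul_mem _ (g.sub_mem he (ht hX)))) fun i j => ?_
    have h1 : (X + (s : ℂ) • (e - X)) i j - X i j = (s : ℂ) * (e - X) i j := by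
      simp
    rw [h1, norm_mul, Complex.norm_real, Real.norm_of_nonneg hs0.le]
    have h2 : ‖(e - X) i j‖ < B := by
      have h3 : ‖(e - X) i j‖ ≤ ∑ j, ‖(e - X) i j‖ :=
        Finset.single_le_sum (f := fun j => ‖(e - X) i j‖) (fun _ _ => norm_nonneg _)
          (Finset.mem_univ j)
      have h4 : ∑ j, ‖(e - X) i j‖ ≤ ∑ i, ∑ j, ‖(e - X) i j‖ :=
        Finset.single_le_sum (f := fun i => ∑ j, ‖(e - X) i j‖)
          (fun _ _ => Finset.sum_nonneg fun _ _ => norm_nonneg _) (Finset.mem_univ i)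
      simp only [B]
      linarith
    calc s * ‖(e - X) i j‖ ≤ s * B := by gcongr
      _ < δ / B * B := by gcongr
      _ = δ := by field_simp
  -- (b)
  have hmu : ∀ j i, ∃ c : ℂ, (bb j).mulVec (v i) = c • v i := fun j i => by
    obtain ⟨c, hc⟩ := hv (bb j) (b j).2 i
    exact ⟨c, by simpa using hc⟩
  choose μ hμ using hmu
  let Λ : t →ₗ[ℂ] (ι → ℂ) := b.constr ℂ μ
  have hΛ : ∀ x : t, ∀ i, (x : Matrix ι ι ℂ).mulVec (v i) = Λ x i • v i := by
    intro x i
    have hx := b.sum_repr x
    have h1 : (x : Matrix ι ι ℂ) = ∑ j, b.repr x j • bb j := by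
      have h4 : ((∑ j, b.repr x j • b j : t) : Matrix ι ι ℂ) = x := by
        rw [hx]
      rw [Submodule.coe_sum] at h4
      exact h4.symm
    have h2 : Λ x = ∑ j, b.repr x j • μ j := by
      rw [Module.Basis.constr_apply_fintype]
      rfl
    rw [h1, h2, Matrix.sum_mulVec, Finset.sum_apply, Finset.sum_smul]
    refine Finset.sum_congr rfl fun j _ => ?_
    rw [Matrix.smul_mulVec, hμ, Pi.smul_apply, smul_smul, smul_eq_mul]
  have hinj : LinearMap.ker Λ = ⊥ := by
    rw [LinearMap.ker_eq_bot']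
    intro x hx
    have h1 : ∀ i, (x : Matrix ι ι ℂ).mulVec (v i) = 0 := fun i => by
      rw [hΛ, hx]; simp
    have h2 : Matrix.toLin' (x : Matrix ι ι ℂ) = 0 := v.ext fun i => by
      rw [Matrix.toLin'_apply, h1]; rfl
    exact Subtype.ext ((Matrix.toLin').map_eq_zero_iff.1 h2)
  obtain ⟨Ψ, hΨ⟩ := LinearMap.exists_leftInverse_of_injective Λ hinj
  let a : Fin d → ι → ℂ := fun j i => b.repr (Ψ (Pi.single i 1)) j
  have ha : ∀ j k, ∑ i, a j i * μ k i = if k = j then 1 else 0 := by
    intro j k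
    have h1 : Λ (b k) = μ k := by simp [Λ]
    have h2 : Ψ (μ k) = b k := by
      rw [← h1, ← LinearMap.comp_apply, hΨ]; rfl
    have h3 : μ k = ∑ i, μ k i • (Pi.single i 1 : ι → ℂ) := by
      funext i
      simp [Finset.sum_apply, Pi.single_apply]
    have h4 : b.repr (Ψ (μ k)) j = ∑ i, a j i * μ k i := by
      conv_lhs => rw [h3]
      simp only [map_sum, map_smul, Finsupp.coe_finsetSum, Finset.sum_apply, Finsupp.coe_smul,
        Pi.smul_apply, smul_eq_mul, a]
      exact Finset.sum_congr rfl fun i _ => mul_comm _ _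
    rw [← h4, h2, Module.Basis.repr_self, Finsupp.single_apply]
  let _ := α.toRingHom.toAlgebra
  have hint : Algebra.IsIntegral (MvPolynomial (J ⊕ ℕ) ℂ) P :=
    spec_integral H bb rfl v μ hμ a ha J α rfl
  -- (c)
  have hβs : Function.Surjective β := fun c => ⟨MvPolynomial.C c, by
    change MvPolynomial.aeval _ (MvPolynomial.C c) = c
    simp⟩
  have hmax : (RingHom.ker β.toRingHom).IsMaximal :=
    RingHom.ker_isMaximal_of_surjective β.toRingHom hβs
  obtain ⟨Q, hQ1, hQ2⟩ := Ideal.exists_ideal_over_maximal_of_isIntegral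
    (S := P) (RingHom.ker β.toRingHom) (fun G hG => by
      rw [RingHom.mem_ker]
      exact hker G hG)
  obtain ⟨c, hc⟩ := MvPolynomial.isMaximal_iff_eq_vanishingIdeal_singleton.1 hQ1
  have hval : ∀ j : J ⊕ ℕ, specInv (R := ℂ) (∑ k, c k • bb k) (Sum.map Subtype.val id j) =
      specInv (R := ℂ) e (Sum.map Subtype.val id j) := by
    intro j
    have h1 : (MvPolynomial.X j - MvPolynomial.C (specInv (R := ℂ) e (Sum.map Subtype.val id j)) :
        MvPolynomial (J ⊕ ℕ) ℂ) ∈ RingHom.ker β.toRingHom := by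
      rw [RingHom.mem_ker]
      change β _ = 0
      simp [β]
    rw [← hQ2, Ideal.mem_comap, hc, MvPolynomial.mem_vanishingIdeal_singleton_iff] at h1
    have h2 : (MvPolynomial.aeval c) (α (MvPolynomial.X j -
        MvPolynomial.C (specInv (R := ℂ) e (Sum.map Subtype.val id j)))) = (0 : ℂ) := h1
    rw [map_sub, map_sub, sub_eq_zero] at h2
    have h3 : α (MvPolynomial.X j) = specInv H (Sum.map Subtype.val id j) := by
      simp [α]
    rw [h3, ← specInv_map, hH] at h2
    rw [h2]
    have h5 : α (MvPolynomial.C (specInv (R := ℂ) e (Sum.map Subtype.val id j))) =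
        algebraMap ℂ P (specInv (R := ℂ) e (Sum.map Subtype.val id j)) := α.commutes _
    rw [h5]
    exact (MvPolynomial.aeval c : P →ₐ[ℂ] ℂ).commutes _
  refine ⟨∑ k, c k • bb k, hbt c, ?_, ?_⟩
  · have hcp : (∑ k, c k • bb k).charpoly = e.charpoly := by
      ext n
      exact hval (Sum.inr n)
    set e' := ∑ k, c k • bb k with he'
    have hlam : ∀ i, ∃ l : ℂ, e'.mulVec (v i) = l • v i := fun i => by
      obtain ⟨l, hl⟩ := hv e' (hbt c) i
      exact ⟨l, by simpa using hl⟩
    have h2 : Matrix.toLin' (e' * e') = Matrix.toLin' e' := v.ext fun i => by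
      obtain ⟨l, hl⟩ := hlam i
      have h3 : e.charpoly.eval l = 0 := by
        rw [← hcp, Matrix.eval_charpoly, ← Matrix.exists_mulVec_eq_zero_iff]
        refine ⟨v i, v.ne_zero i, ?_⟩
        rw [Matrix.sub_mulVec, hl, Matrix.scalar_apply]
        funext k
        simp
      rw [Matrix.eval_charpoly, ← Matrix.exists_mulVec_eq_zero_iff] at h3
      obtain ⟨w, hw0, hw⟩ := h3
      have h4 : e.mulVec w = l • w := by
        rw [Matrix.sub_mulVec, Matrix.scalar_apply, sub_eq_zero] at hw
        rw [← hw]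
        funext k
        simp [Matrix.mulVec_diagonal]
      have h5 : l * l = l := by
        have h6 : (e * e).mulVec w = (l * l) • w := by
          rw [← Matrix.mulVec_mulVec, h4, Matrix.mulVec_smul, h4, smul_smul]
        rw [hee, h4] at h6
        have h7 : (l * l - l) • w = 0 := by rw [sub_smul, ← h6, sub_self]
        rcases smul_eq_zero.1 h7 with h | h
        · exact sub_eq_zero.1 h
        · exact absurd h hw0
      rw [Matrix.toLin'_apply, Matrix.toLin'_apply, ← Matrix.mulVec_mulVec, hl,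
        Matrix.mulVec_smul, hl, smul_smul, h5]
    exact (Matrix.toLin').injective h2
  · intro Z hZ
    have h1 := hval (Sum.inl ⟨Z, hZ⟩)
    have h2 : Z.map (algebraMap ℂ ℂ) = Z := by ext i j; rfl
    simp only [specInv, Sum.map_inl, Sum.elim_inl, h2] at h1
    exact h1

end Pool.Agent.EllSig
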