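import Pool.Agent.EllSig.Htr
import Pool.Agent.EllSig.Spec
import Pool.Agent.EllSig.Gen
import Pool.Agent.PrimeSig.Tor
import Pool.Agent.CoprimeSig.Core

/-!
# The l-adic Lie algebra is the full Lefschetz algebra
-/

set_option autoImplicit false

namespace Pool.Agent.EllSig

open Module Pool.Agent.CoprimeSig Pool.Agent.PrimeSig Pool.Agent.OneFrob

variable {ι : Type} [Fintype ι] [DecidableEq ι] {g t : Submodule ℂ (Matrix ι ι ℂ)}
  {F : Matrix ι ι ℂ} {K : Type} [Field K] [NumberField K] {R : K →+* Matrix ι ι ℚ}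

private theorem tl_mul (x y : Matrix ι ι ℂ) :
    Matrix.toLin' x * Matrix.toLin' y = Matrix.toLin' (x * y) := (Matrix.toLin'_mul x y).symm

private theorem tl_inj {x y : Matrix ι ι ℂ} : Matrix.toLin' x = Matrix.toLin' y ↔ x = y :=
  (Matrix.toLin' (R := ℂ)).injective.eq_iff

private theorem tl_trace (x : Matrix ι ι ℂ) :
    LinearMap.trace ℂ (ι → ℂ) (Matrix.toLin' x) = x.trace := by
  rw [Matrix.trace_toLin'_eq]

private theorem tl_range (x : End ℂ (ι → ℂ)) : ∃ y : Matrix ι ι ℂ, x = Matrix.toLin' y :=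
  ⟨LinearMap.toMatrix' x, (Matrix.toLin'_toMatrix' x).symm⟩

/-- The torus is a Cartan subalgebra in the sense of `Cartan`. -/
private theorem cartan (D : LData g F) (htg : t ≤ g)
    (htc : ∀ x ∈ t, ∀ y ∈ t, x * y = y * x) (hcent : ∀ x ∈ g, (∀ y ∈ t, x * y = y * x) → x ∈ t)
    (v : Basis ι ℂ (ι → ℂ)) (hv : ∀ x ∈ t, ∀ i, ∃ c : ℂ, Matrix.toLin' x (v i) = c • v i) :
    Cartan (endo g) (endo t) where
  comm := by
    rintro _ ⟨x, hx, rfl⟩ _ ⟨y, hy, rfl⟩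
    change Matrix.toLin' x * Matrix.toLin' y = Matrix.toLin' y * Matrix.toLin' x
    rw [tl_mul, tl_mul, htc x hx y hy]
  diag := by
    refine ⟨ι, inferInstance, v, ?_⟩
    rintro _ ⟨x, hx, rfl⟩ i
    exact hv x hx i
  lie := by
    rintro _ ⟨x, hx, rfl⟩ _ ⟨y, hy, rfl⟩
    change Matrix.toLin' x * Matrix.toLin' y - Matrix.toLin' y * Matrix.toLin' x ∈ endo g
    rw [tl_mul, tl_mul, ← map_sub]
    exact mem_endo.2 (D.lie x hx y hy)
  nd := by
    rintro _ ⟨x, hx, rfl⟩ h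
    have h1 : x = 0 := by
      refine D.nd x hx fun y hy => ?_
      have h2 := h _ (mem_endo.2 hy)
      change LinearMap.trace ℂ _ (Matrix.toLin' x * Matrix.toLin' y) = 0 at h2
      rwa [tl_mul, tl_trace] at h2
    rw [h1]
    exact map_zero _
  le := by
    rintro _ ⟨x, hx, rfl⟩
    exact ⟨x, htg hx, rfl⟩
  cent := by
    rintro _ ⟨x, hx, rfl⟩ h
    refine mem_endo.2 (hcent x hx fun y hy => ?_)
    have h2 := h _ (mem_endo.2 hy)
    change Matrix.toLin' x * Matrix.toLin' y = Matrix.toLin' y * Matrix.toLin' x at h2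
    rwa [tl_mul, tl_mul, tl_inj] at h2

omit [NumberField K] in
/-- Elements commuting with the field preserve its eigenspaces. -/
private theorem pres {x : Matrix ι ι ℂ} (hx : ∀ r, x * ratM (R r) = ratM (R r) * x)
    (σ : K →+* ℂ) {w : ι → ℂ} (hw : w ∈ HS R σ) : x.mulVec w ∈ HS R σ := by
  intro r
  rw [Matrix.mulVec_mulVec, ← hx r, ← Matrix.mulVec_mulVec, hw r, Matrix.mulVec_smul]

private theorem tr_idem {P : Matrix ι ι ℂ} (h : P * P = P) :
    P.trace = (finrank ℂ (LinearMap.range (Matrix.toLin' P)) : ℂ) := by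
  rw [← tl_trace]
  refine LinearMap.IsProj.trace (p := LinearMap.range (Matrix.toLin' P)) ⟨fun x => ⟨x, rfl⟩, ?_⟩
  rintro _ ⟨x, rfl⟩
  rw [← LinearMap.comp_apply, ← Matrix.toLin'_mul, h]

private theorem eq_zero_of_tr {P : Matrix ι ι ℂ} (h : P * P = P) (h0 : P.trace = 0) : P = 0 := by
  have h1 := tr_idem h
  rw [h0] at h1
  have h2 : finrank ℂ (LinearMap.range (Matrix.toLin' P)) = 0 := by exact_mod_cast h1.symm
  rw [Submodule.finrank_eq_zero, LinearMap.range_eq_bot] at h2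
  exact tl_inj.1 (by rw [h2, map_zero])

private theorem map_range {Z : Matrix ι ι ℂ} {U : Submodule ℂ (ι → ℂ)}
    (h1 : ∀ w ∈ U, Z.mulVec w = w) (h2 : ∀ w, Z.mulVec w ∈ U) (e : Matrix ι ι ℂ) :
    LinearMap.range (Matrix.toLin' (e * Z)) = U.map (Matrix.toLin' e) := by
  apply le_antisymm
  · rintro _ ⟨w, rfl⟩
    refine ⟨Z.mulVec w, h2 w, ?_⟩
    rw [Matrix.toLin'_apply, Matrix.toLin'_apply, Matrix.mulVec_mulVec]
  · rintro _ ⟨w, hw, rfl⟩
    refine ⟨w, ?_⟩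
    rw [Matrix.toLin'_apply, Matrix.toLin'_apply, ← Matrix.mulVec_mulVec, h1 w hw]

/-- A projector onto the sum of the eigenspaces in `S`. -/
private theorem exists_pr (R : K →+* Matrix ι ι ℚ) (S : Set (K →+* ℂ)) :
    ∃ Z : Matrix ι ι ℂ, (∀ w ∈ VS R S, Z.mulVec w = w) ∧ (∀ w, Z.mulVec w ∈ VS R S) ∧
      ∀ x : Matrix ι ι ℂ, (∀ r, x * ratM (R r) = ratM (R r) * x) → x * Z = Z * x := by
  obtain ⟨T, hTT, hTc, -, -, hV⟩ := exists_T R S
  refine ⟨(1 / 2 : ℂ) • (1 + T), fun w hw => ?_, fun w => ?_, fun x hx => ?_⟩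
  · rw [hV, Module.End.mem_eigenspace_iff, Matrix.toLin'_apply, one_smul] at hw
    rw [Matrix.smul_mulVec, Matrix.add_mulVec, Matrix.one_mulVec, hw]
    module
  · rw [hV, Module.End.mem_eigenspace_iff, Matrix.toLin'_apply, one_smul, Matrix.mulVec_mulVec,
      Matrix.mul_smul, mul_add, mul_one, hTT, add_comm]
  · rw [Matrix.mul_smul, Matrix.smul_mul, mul_add, add_mul, mul_one, one_mul, hTc x hx]

omit [NumberField K] in
private theorem le_VS {S : Set (K →+* ℂ)} {σ : K →+* ℂ} (hσ : σ ∈ S) : HS R σ ≤ VS R S :=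
  le_iSup₂_of_le (f := fun (σ : K →+* ℂ) (_ : σ ∈ S) => HS R σ) σ hσ le_rfl

/-- The trace of an idempotent of multiplier one. -/
private theorem tr_half (D : LData g F) {e : Matrix ι ι ℂ} (heF : e.transpose * F + F * e = F) :
    e.trace = (Fintype.card ι : ℂ) / 2 := by
  obtain ⟨u, hu⟩ := D.unit
  have h1 : e.transpose + F * e * (u⁻¹ : (Matrix ι ι ℂ)ˣ) = 1 := by
    have h2 := congrArg (fun N => N * ((u⁻¹ : (Matrix ι ι ℂ)ˣ) : Matrix ι ι ℂ)) heF
    simp only [add_mul] at h2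
    rw [mul_assoc, ← hu, Units.mul_inv, mul_one] at h2
    rw [← hu]
    exact h2
  have h3 := congrArg Matrix.trace h1
  rw [Matrix.trace_add, Matrix.trace_transpose, Matrix.trace_mul_comm, ← mul_assoc, ← hu,
    Units.inv_mul, one_mul, Matrix.trace_one] at h3
  rw [← h3]
  ring

/-- The Lie algebra contains all skew elements of its double commutant. -/
theorem full_ell (D : LData g F) (hK : ∀ r, ∀ x ∈ g, x * ratM (R r) = ratM (R r) * x)
    (hiso : ∀ σ : K →+* ℂ, ∀ U ≤ HS R σ, (∀ x ∈ g, ∀ u ∈ U, x.mulVec u ∈ U) →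
      (∀ Z : Matrix ι ι ℂ, (∀ x ∈ g, x * Z = Z * x) → (∀ w ∈ HS R σ, Z.mulVec w ∈ HS R σ) →
        ∀ u ∈ U, Z.mulVec u ∈ U) → U = ⊥ ∨ U = HS R σ)
    (c : K →+* K) (hc : ∀ (σ : K →+* ℂ) (r : K), σ (c r) = starRingEnd ℂ (σ r))
    (hF : ∀ r, (ratM (R r)).transpose * F = F * ratM (R (c r)))
    (htg : t ≤ g) (htc : ∀ x ∈ t, ∀ y ∈ t, x * y = y * x)
    (hcent : ∀ x ∈ g, (∀ y ∈ t, x * y = y * x) → x ∈ t)
    (htconj : ∀ σ : ℂ →+* ℂ, ∀ x ∈ t, x.map σ ∈ t)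
    (v : Basis ι ℂ (ι → ℂ)) (hv : ∀ x ∈ t, ∀ i, ∃ c : ℂ, Matrix.toLin' x (v i) = c • v i)
    {e₀ : Matrix ι ι ℂ} (he₀ : e₀ ∈ g) (hee₀ : e₀ * e₀ = e₀)
    (heF : e₀.transpose * F + F * e₀ = F)
    (M M' : Subfield ℂ) (hMM : M ≤ M') (σ₀ : K →+* ℂ)
    (hS : ∀ σ, σ ∈ conjOver M σ₀ ↔ (starRingEnd ℂ).comp σ ∉ conjOver M σ₀)
    {l k : ℕ} (hl : l.Prime) (hk : finrank ℂ (VS R (conjOver M' σ₀)) = l ^ k)
    (hM : finrank ℂ (HS R σ₀) = 1 ∨
      ¬ l ∣ finrank σ₀.fieldRange (IntermediateField.adjoin σ₀.fieldRange (M' : Set ℂ)))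
    (h0 : ∀ σ ∈ conjOver M σ₀, σ ∉ conjOver M' σ₀ → ∀ w ∈ HS R σ, e₀.mulVec w = 0)
    (hla : ¬ l ∣ finrank ℂ ((VS R (conjOver M' σ₀)).map (Matrix.toLin' e₀)))
    (h4 : 4 * finrank ℂ ((VS R (conjOver M' σ₀)).map (Matrix.toLin' e₀)) ≠ Fintype.card ι)
    (N : Matrix ι ι ℂ) (hN : N.transpose * F + F * N = 0)
    (hcomm : ∀ Z : Matrix ι ι ℂ, (∀ x ∈ g, x * Z = Z * x) → N * Z = Z * N) : N ∈ g := by
  obtain ⟨e, het, hee, htr⟩ := exists_spec D.lie htg htc hcent v hv he₀ hee₀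
  have C := cartan D htg htc hcent v hv
  have hKg : ∀ x ∈ g, ∀ r, x * ratM (R r) = ratM (R r) * x := fun x hx r => hK r x hx
  have hKe : ∀ x ∈ endo g, ∀ σ, ∀ w ∈ HS R σ, x w ∈ HS R σ := by
    rintro _ ⟨x, hx, rfl⟩ σ w hw
    exact pres (hKg x hx) σ hw
  have hKt : ∀ x ∈ endo t, ∀ σ, ∀ w ∈ HS R σ, x w ∈ HS R σ := fun x hx => hKe x (C.le hx)
  set S : Set (K →+* ℂ) := conjOver M σ₀ with hSdef
  set S' : Set (K →+* ℂ) := conjOver M' σ₀ with hS'def
  set S'' : Set (K →+* ℂ) := S \ S' with hS''def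
  have hS'S : S' ⊆ S := by
    rintro _ ⟨τ, hτ, rfl⟩
    exact ⟨τ, fun x hx => hτ x (hMM hx), rfl⟩
  set W' : Submodule ℂ (ι → ℂ) := VS R S' with hW'
  set W'' : Submodule ℂ (ι → ℂ) := VS R S'' with hW''
  have hst' : ∀ x ∈ endo g, ∀ w ∈ W', x w ∈ W' := by
    intro x hx w hw
    have h1 : W' ≤ W'.comap x := iSup₂_le fun σ hσ u hu => le_VS hσ (hKe x hx σ u hu)
    exact h1 hw
  have hS''st : ∀ τ : ℂ →+* ℂ, (∀ x ∈ M', τ x = x) → ∀ σ ∈ S'', τ.comp σ ∈ S'' := by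
    rintro τ hτ σ ⟨h1, h2⟩
    refine ⟨comp_mem_conjOver h1 fun x hx => hτ x (hMM hx), fun h3 => h2 ?_⟩
    let f : S' → S' := fun σ => ⟨τ.comp σ.1, comp_mem_conjOver σ.2 hτ⟩
    have hinj : Function.Injective fun σ : K →+* ℂ => τ.comp σ := by
      intro σ σ' h
      ext r
      exact τ.injective (RingHom.congr_fun h r)
    have hfinj : Function.Injective f := fun a b h =>
      Subtype.ext (hinj (congrArg Subtype.val h))
    have hfin : Finite S' := inferInstance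
    obtain ⟨σ', hσ'⟩ := (Finite.injective_iff_surjective.mp hfinj) ⟨_, h3⟩
    have h4 : σ'.1 = σ := hinj (congrArg Subtype.val hσ')
    rw [← h4]
    exact σ'.2
  have htrans := htr_of C.toTor htconj hKt ((Fintype.card ι : ℂ) / 2)
    (pt_trans C htconj hKe (by
      intro σ U hU hgU hzU
      refine hiso σ U hU (fun x hx u hu => ?_) fun Z hZ hZW u hu => ?_
      · have h1 := hgU _ (mem_endo.2 hx) u hu
        rwa [Matrix.toLin'_apply] at h1
      · have h1 := hzU (Matrix.toLin' Z) (by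
          rintro _ ⟨x, hx, rfl⟩
          change Matrix.toLin' Z * Matrix.toLin' x = Matrix.toLin' x * Matrix.toLin' Z
          rw [tl_mul, tl_mul, hZ x hx]) (fun w hw => by
          rw [Matrix.toLin'_apply]
          exact hZW w hw) u hu
        rwa [Matrix.toLin'_apply] at h1) _) M' σ₀ S'' hS''st hl hk hM
  -- the idempotent of the torus
  have heK : ∀ r, e * ratM (R r) = ratM (R r) * e := hKg e (htg het)
  have hhK : ∀ r, e₀ * ratM (R r) = ratM (R r) * e₀ := hKg _ he₀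
  have hsq : ∀ {P Z : Matrix ι ι ℂ}, P * P = P → P * Z = Z * P → Z * Z = Z →
      (P * Z) * (P * Z) = P * Z := by
    intro P Z h1 h2 h3
    calc P * Z * (P * Z) = P * (Z * P) * Z := by simp only [mul_assoc]
      _ = P * P * (Z * Z) := by rw [← h2]; simp only [mul_assoc]
      _ = P * Z := by rw [h1, h3]
  have hZZ : ∀ {Z : Matrix ι ι ℂ} {U : Submodule ℂ (ι → ℂ)}, (∀ w ∈ U, Z.mulVec w = w) →
      (∀ w, Z.mulVec w ∈ U) → Z * Z = Z := by
    intro Z U h1 h2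
    rw [← tl_inj]
    refine LinearMap.ext fun w => ?_
    rw [Matrix.toLin'_apply, Matrix.toLin'_apply, ← Matrix.mulVec_mulVec, h1 _ (h2 w)]
  have he0 : ∀ w ∈ W'', e.mulVec w = 0 := by
    intro w hw
    obtain ⟨Z, hZ1, hZ2, hZ3⟩ := exists_pr R S''
    have hhW : ∀ w ∈ W'', e₀.mulVec w = 0 := by
      have h1 : W'' ≤ LinearMap.ker (Matrix.toLin' e₀) := by
        refine iSup₂_le fun σ hσ y hy => ?_
        rw [LinearMap.mem_ker, Matrix.toLin'_apply]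
        exact h0 σ hσ.1 hσ.2 y hy
      intro w hw
      have h2 := h1 hw
      rwa [LinearMap.mem_ker, Matrix.toLin'_apply] at h2
    have h3 : e * Z = 0 := by
      refine eq_zero_of_tr (hsq hee (hZ3 e heK) (hZZ hZ1 hZ2)) ?_
      rw [htr Z fun x hx => hZ3 x (hKg x hx)]
      have h5 : e₀ * Z = 0 := by
        rw [← tl_inj, map_zero]
        refine LinearMap.ext fun w => ?_
        rw [Matrix.toLin'_apply, ← Matrix.mulVec_mulVec, hhW _ (hZ2 w)]
        rfl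
      rw [h5, Matrix.trace_zero]
    rw [← hZ1 w hw, Matrix.mulVec_mulVec, h3, Matrix.zero_mulVec]
  have heE : Matrix.toLin' e ∈ EE (endo t) W'' ((Fintype.card ι : ℂ) / 2) := by
    refine ⟨mem_endo.2 het, by rw [tl_mul, hee], fun w hw => ?_, ?_⟩
    · rw [Matrix.toLin'_apply]
      exact he0 w hw
    · rw [tl_trace]
      have h1 := htr 1 fun x _ => by rw [mul_one, one_mul]
      rw [mul_one, mul_one] at h1
      rw [h1, tr_half D heF]
  have ha : finrank ℂ (W'.map (Matrix.toLin' e)) = finrank ℂ (W'.map (Matrix.toLin' e₀)) := by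
    obtain ⟨Z, hZ1, hZ2, hZ3⟩ := exists_pr R S'
    have h1 := tr_idem (hsq hee (hZ3 e heK) (hZZ hZ1 hZ2))
    have h2 := tr_idem (hsq hee₀ (hZ3 _ hhK) (hZZ hZ1 hZ2))
    rw [map_range hZ1 hZ2] at h1 h2
    rw [htr Z fun x hx => hZ3 x (hKg x hx), h2] at h1
    exact_mod_cast h1.symm
  obtain ⟨v', hv'⟩ := core C.toTor (fun x hx w hw => hst' x (C.le hx) w hw)
    ((Fintype.card ι : ℂ) / 2) htrans hl hk heE ha hla
  have hx' : ∀ i, ∃ x ∈ t, (∀ j, x.mulVec (v' j : ι → ℂ) =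
      if j = i then (v' j : ι → ℂ) else 0) ∧ (∀ w ∈ W'', x.mulVec w = 0) ∧
      x.trace = (Fintype.card ι : ℂ) / 2 / (finrank ℂ (W'.map (Matrix.toLin' e₀)) : ℂ) := by
    intro i
    obtain ⟨_, ⟨x, hx, rfl⟩, h1, h2, h3⟩ := hv' i
    exact ⟨x, hx, h1, h2, by rw [← h3]; exact (tl_trace x).symm⟩
  choose x hxt hxv hxW hxtr using hx'
  have hone : (1 : Matrix ι ι ℂ) ∈ t := hcent 1 D.one fun y _ => by rw [one_mul, mul_one]
  have ha0 : finrank ℂ (W'.map (Matrix.toLin' e₀)) ≠ 0 := by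
    intro h
    rw [h] at hla
    exact hla (dvd_zero l)
  obtain ⟨I, hI1, hI2, w, hw1, hw2, hw3⟩ := coroots D hK htg hone htconj S S' hS hS'S σ₀
    (self_mem_conjOver M' σ₀) (by
      rintro _ ⟨τ, hτ, rfl⟩
      exact ⟨τ, rfl, fun σ' hσ' => comp_mem_conjOver hσ' hτ⟩)
    ha0 h4 v' x hxt hxv (fun i σ h1 h2 y hy => hxW i y (le_VS (S := S'') ⟨h1, h2⟩ hy))
    (fun i => by
      rw [hxtr i]
      field_simp)
  obtain ⟨T, hTT, hTc, hT1, hT2, hV⟩ := exists_T R S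
  have hTg : ∀ x ∈ g, x * T = T * x := fun x hx => hTc x (hKg x hx)
  have hskew := T_skew R S hS hT1 hT2 c hc _ hF
  have hw4 : ∀ i, ∃ c ∈ g, (∀ j, c.mulVec (w j) = if j = i then w j else 0) ∧
      c.transpose * F + F * c = 0 := by
    intro i
    obtain ⟨c, hc, h1, h2⟩ := hw3 i
    exact ⟨c, htg hc, h1, h2⟩
  have hTT' : T * T = ((1 : ℂ) * 1) • (1 : Matrix ι ι ℂ) := by rw [hTT, one_mul, one_smul]
  rw [hV] at hw2
  exact full_of_coroots D T 1 one_ne_zero hTT' hTg hskew I w hw1 hw2 hw4 N hN hcomm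

end Pool.Agent.EllSig
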